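import Pool.Agent.Lib.MP_a6d6d3_gt.Sym

/-!
Groups satisfying Kervaire's conditions (for example knot groups) lift through central extensions.
-/

namespace Pool.Agent.Lib.MP_a6d6d3_gt

open Subgroup
open scoped commutatorElement

set_option linter.unusedSectionVars false
set_option linter.style.haveILetI false

/-- `H_2(A; ℤ) = 0`, in the form of Hopf's formula for the free group on the elements of `A`:
with `N` the kernel of the natural map `F(A) → A`, one has `N ∩ [F, F] ≤ [N, F]`. -/
def HopfTrivial (A : Type*) [Group A] : Prop :=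
  (FreeGroup.lift (id : A → A)).ker ⊓ commutator (FreeGroup A) ≤
    ⁅(FreeGroup.lift (id : A → A)).ker, (⊤ : Subgroup (FreeGroup A))⁆

/-- Kervaire's conditions for the group `A` and its element `μ` (satisfied by the group of a knot
and its meridian): `A` is the normal closure of `μ`, the image of `μ` in the abelianisation of `A`
has infinite order (so `H_1(A) = ℤ`), and `H_2(A) = 0`. -/
structure KnotLike {A : Type*} [Group A] (μ : A) : Prop where
  gen : Subgroup.normalClosure {μ} = ⊤
  inf : ∀ n : ℤ, μ ^ n ∈ commutator A → n = 0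
  hopf : HopfTrivial A

section
variable {A E : Type*} [Group A] [Group E]

theorem ker_inf_commutator_eq_bot (h : HopfTrivial A) (q : E →* A)
    (hq : Function.Surjective q) (hc : ∀ x ∈ q.ker, ∀ y, x * y = y * x) (x : E)
    (hx : x ∈ q.ker) (hx' : x ∈ commutator E) : x = 1 := by
  choose f hf using hq
  let θ : FreeGroup A →* E := FreeGroup.lift f
  have hθ : q.comp θ = FreeGroup.lift (id : A → A) := by
    ext a
    simp [θ, hf]
  have hcen : q.ker ≤ Subgroup.center E := by
    intro x hx
    rw [Subgroup.mem_center_iff]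
    intro y
    exact (hc x hx y).symm
  have htop : θ.range ⊔ q.ker = ⊤ := by
    rw [eq_top_iff]
    intro y _
    have h1 : (θ (FreeGroup.of (q y)))⁻¹ * y ∈ q.ker := by
      rw [MonoidHom.mem_ker, map_mul, map_inv]
      simp [θ, hf]
    have h2 : θ (FreeGroup.of (q y)) * ((θ (FreeGroup.of (q y)))⁻¹ * y) = y := by group
    rw [← h2]
    exact Subgroup.mul_mem_sup ⟨_, rfl⟩ h1
  have hcomm : commutator E ≤ (commutator (FreeGroup A)).map θ := by
    rw [commutator_def, ← htop, commutator_def, Subgroup.map_commutator, ← MonoidHom.range_eq_map]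
    rw [Subgroup.commutator_le]
    intro a ha b hb
    haveI : (q.ker).Normal := inferInstance
    rw [Subgroup.mem_sup_of_normal_right] at ha hb
    obtain ⟨a1, ha1, a2, ha2, rfl⟩ := ha
    obtain ⟨b1, hb1, b2, hb2, rfl⟩ := hb
    have e1 : ⁅a1 * a2, b1 * b2⁆ = ⁅a1, b1⁆ := by
      refine comm_calc _ _ _ _ ?_ ?_
      · exact hc a2 ha2 _
      · exact hc b2 hb2 _
    rw [e1]
    exact Subgroup.commutator_mem_commutator ha1 hb1
  obtain ⟨y, hy, rfl⟩ := hcomm hx'
  have hy2 : y ∈ (FreeGroup.lift (id : A → A)).ker := by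
    rw [MonoidHom.mem_ker, ← hθ]
    exact hx
  have hy3 := h ⟨hy2, hy⟩
  have h1 : ⁅(FreeGroup.lift (id : A → A)).ker, (⊤ : Subgroup (FreeGroup A))⁆ ≤ θ.ker := by
    rw [Subgroup.commutator_le]
    intro a ha b _
    rw [MonoidHom.mem_ker, map_commutatorElement, commutatorElement_eq_one_iff_mul_comm]
    refine hc _ ?_ _
    rw [MonoidHom.mem_ker, ← MonoidHom.comp_apply, hθ]
    exact ha
  exact h1 hy3

/-- A knot-like group lifts through every central extension, carrying the meridian to a given
lift of the meridian. -/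
theorem KnotLike.exists_section {μ : A} (h : KnotLike μ) (q : E →* A)
    (hq : Function.Surjective q) (hc : ∀ x ∈ q.ker, ∀ y, x * y = y * x) (m : E) (hm : q m = μ) :
    ∃ s : A →* E, (∀ a, q (s a) = a) ∧ s μ = m := by
  have hbot := ker_inf_commutator_eq_bot h.hopf q hq hc
  let S : Subgroup E := commutator E ⊔ Subgroup.zpowers m
  have hqc : (commutator E).map q = commutator A := by
    rw [commutator_def, Subgroup.map_commutator, ← MonoidHom.range_eq_map,
      MonoidHom.range_eq_top.2 hq, commutator_def]
  have hinj : Function.Injective (q.comp S.subtype) := by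
    rw [injective_iff_map_eq_one]
    rintro ⟨x, hx⟩ hx1
    change q x = 1 at hx1
    rw [Subgroup.mk_eq_one]
    change x ∈ commutator E ⊔ Subgroup.zpowers m at hx
    rw [Subgroup.mem_sup_of_normal_left] at hx
    obtain ⟨d, hd, y, hy, rfl⟩ := hx
    obtain ⟨n, rfl⟩ := Subgroup.mem_zpowers_iff.1 hy
    have hd' : q d ∈ commutator A := by
      rw [← hqc]; exact ⟨d, hd, rfl⟩
    have h1 : μ ^ n ∈ commutator A := by
      rw [map_mul, map_zpow, hm] at hx1
      have : μ ^ n = (q d)⁻¹ := by
        rw [eq_inv_iff_mul_eq_one]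
        have := congrArg (fun z => (q d)⁻¹ * z * q d) hx1
        simpa [mul_assoc] using this
      rw [this]
      exact inv_mem hd'
    have h2 := h.inf n h1
    subst h2
    rw [zpow_zero, mul_one] at hx1 ⊢
    exact hbot d hx1 hd
  have hsurj : Function.Surjective (q.comp S.subtype) := by
    rw [← MonoidHom.range_eq_top]
    have hN : (q.comp S.subtype).range = commutator A ⊔ Subgroup.zpowers μ := by
      rw [MonoidHom.range_comp, Subgroup.range_subtype]
      change (commutator E ⊔ Subgroup.zpowers m).map q = _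
      rw [Subgroup.map_sup, hqc, MonoidHom.map_zpowers, hm]
    rw [hN]
    haveI : (commutator A ⊔ Subgroup.zpowers μ).Normal :=
      Subgroup.Normal.of_commutator_le _ le_sup_left
    rw [eq_top_iff, ← h.gen]
    refine Subgroup.normalClosure_le_normal ?_
    rw [Set.singleton_subset_iff]
    exact (le_sup_right : Subgroup.zpowers μ ≤ _) (Subgroup.mem_zpowers μ)
  let e : S ≃* A := MulEquiv.ofBijective (q.comp S.subtype) ⟨hinj, hsurj⟩
  refine ⟨S.subtype.comp e.symm.toMonoidHom, ?_, ?_⟩
  · intro a
    have : e (e.symm a) = a := e.apply_symm_apply a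
    exact this
  · have hmS : m ∈ S := (le_sup_right : Subgroup.zpowers m ≤ _) (Subgroup.mem_zpowers m)
    have : e.symm μ = ⟨m, hmS⟩ := by
      rw [MulEquiv.symm_apply_eq]
      exact hm.symm
    change ((e.symm μ : S) : E) = m
    rw [this]

end

section
variable {A B : Type*} [Group A] [Group B]

theorem HopfTrivial.of_equiv (e : A ≃* B) (h : HopfTrivial A) : HopfTrivial B := by
  let E : FreeGroup A ≃* FreeGroup B := FreeGroup.freeGroupCongr e.toEquiv
  have hE : ∀ y : FreeGroup A, FreeGroup.lift (id : B → B) (E y) =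
      e (FreeGroup.lift (id : A → A) y) := by
    intro y
    have : (FreeGroup.lift (id : B → B)).comp E.toMonoidHom =
        e.toMonoidHom.comp (FreeGroup.lift (id : A → A)) := by
      ext a
      simp [E]
    exact DFunLike.congr_fun this y
  have hcomm : ∀ x ∈ commutator (FreeGroup B), E.symm x ∈ commutator (FreeGroup A) := by
    have h1 : (commutator (FreeGroup B)).map E.symm.toMonoidHom ≤ commutator (FreeGroup A) := by
      rw [commutator_def, Subgroup.map_commutator, commutator_def]
      exact Subgroup.commutator_mono le_top le_top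
    intro x hx
    exact h1 ⟨x, hx, rfl⟩
  rintro x ⟨hx1, hx2⟩
  have hy1 : E.symm x ∈ (FreeGroup.lift (id : A → A)).ker := by
    rw [MonoidHom.mem_ker]
    apply e.injective
    rw [← hE, MulEquiv.apply_symm_apply, map_one]
    exact hx1
  have hy := h ⟨hy1, hcomm x hx2⟩
  have h2 : (⁅(FreeGroup.lift (id : A → A)).ker, (⊤ : Subgroup (FreeGroup A))⁆).map
      E.toMonoidHom ≤ ⁅(FreeGroup.lift (id : B → B)).ker, (⊤ : Subgroup (FreeGroup B))⁆ := by
    rw [Subgroup.map_commutator]
    refine Subgroup.commutator_mono ?_ le_top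
    rintro _ ⟨y, hy, rfl⟩
    rw [MonoidHom.mem_ker]
    change FreeGroup.lift (id : B → B) (E y) = 1
    rw [hE, MonoidHom.mem_ker.1 hy, map_one]
  have h3 := h2 ⟨_, hy, rfl⟩
  have h4 : E.toMonoidHom (E.symm x) = x := E.apply_symm_apply x
  rwa [h4] at h3

theorem KnotLike.of_equiv (e : A ≃* B) {μ : A} (h : KnotLike μ) : KnotLike (e μ) := by
  refine ⟨?_, ?_, h.hopf.of_equiv e⟩
  · have h1 := Subgroup.map_normalClosure {μ} e.toMonoidHom e.surjective
    rw [h.gen, Set.image_singleton, ← MonoidHom.range_eq_map, MonoidHom.range_eq_top.2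
      e.surjective] at h1
    exact h1.symm
  · intro n hn
    refine h.inf n ?_
    have h1 : (commutator B).map e.symm.toMonoidHom ≤ commutator A := by
      rw [commutator_def, Subgroup.map_commutator, commutator_def]
      exact Subgroup.commutator_mono le_top le_top
    have h2 := h1 ⟨_, hn, rfl⟩
    have h3 : e.symm.toMonoidHom (e μ ^ n) = μ ^ n := by
      change e.symm (e μ ^ n) = μ ^ n
      rw [map_zpow, e.symm_apply_apply]
    rwa [h3] at h2

end

end Pool.Agent.Lib.MP_a6d6d3_gt
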