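import Pool.Agent.Lib.MP_a6d6d3_gt.Rem.Knot

/-!
Lifting symmetric commutator products along homomorphisms, and partially defined retractions.
-/

namespace Pool.Agent.Lib.MP_a6d6d3_gt

open Subgroup
open scoped commutatorElement

set_option linter.unusedSectionVars false
set_option linter.style.haveILetI false

section
variable {Γ G : Type*} [Group Γ] [Group G] {ι : Type*} [DecidableEq ι]

theorem cc_mono (R R' : ι → Subgroup G) (l : List ι) (hne : l ≠ []) (h : ∀ i ∈ l, R i ≤ R' i) :
    cc R l ≤ cc R' l := by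
  induction l using List.reverseRecOn with
  | nil => exact absurd rfl hne
  | append_singleton l j ih =>
    by_cases hl : l = []
    · subst hl
      simp only [List.nil_append, cc_single]
      exact h j (by simp)
    · rw [cc_snoc R l hl j, cc_snoc R' l hl j]
      exact commutator_mono (ih hl fun i hi => h i (by simp [hi])) (h j (by simp))

theorem ss_mono (R R' : ι → Subgroup G) (I : Finset ι) (hI : I.Nonempty)
    (h : ∀ i ∈ I, R i ≤ R' i) : ss R I ≤ ss R' I := by
  refine ss_le R _ _ fun l hl1 hl2 => ?_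
  have hne : l ≠ [] := by
    rintro rfl
    rw [← hl2] at hI
    simp at hI
  exact (cc_mono R R' l hne fun i hi => h i (by rw [← hl2]; exact List.mem_toFinset.2 hi)).trans
    (cc_le_ss R' I l hl1 hl2)

theorem map_cc (φ : Γ →* G) (T : ι → Subgroup Γ) (l : List ι) (hne : l ≠ []) :
    (cc T l).map φ = cc (fun i => (T i).map φ) l := by
  induction l using List.reverseRecOn with
  | nil => exact absurd rfl hne
  | append_singleton l j ih =>
    by_cases hl : l = []
    · subst hl
      simp only [List.nil_append, cc_single]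
    · rw [cc_snoc T l hl j, cc_snoc _ l hl j, map_commutator, ih hl]

theorem map_ss (φ : Γ →* G) (T : ι → Subgroup Γ) (I : Finset ι) (hI : I.Nonempty) :
    (ss T I).map φ = ss (fun i => (T i).map φ) I := by
  unfold ss
  rw [Subgroup.map_iSup]
  refine iSup_congr ?_
  rintro ⟨l, hl1, hl2⟩
  have hne : l ≠ [] := by
    rintro rfl
    rw [← hl2] at hI
    simp at hI
  exact map_cc φ T l hne

theorem map_ss_le (φ : Γ →* G) (T : ι → Subgroup Γ) (R : ι → Subgroup G) (I : Finset ι)
    (hI : I.Nonempty) (h : ∀ i ∈ I, (T i).map φ ≤ R i) : (ss T I).map φ ≤ ss R I := by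
  rw [map_ss φ T I hI]
  exact ss_mono _ _ I hI h

/-- The three inclusions used in the step from `l` to `l ++ [j]`. -/
theorem step_le (R : ι → Subgroup G) [h : ∀ i, (R i).Normal] (k : ι) (l : List ι) (j : ι)
    (hl : l ≠ []) (hnd : (l ++ [j]).Nodup) (hk : k ∉ l ++ [j]) :
    ⁅ss R (insert k l.toFinset), R j⁆ ≤ ss R (insert k (l ++ [j]).toFinset) ∧
    ⁅⁅R j, R k⁆, cc R l⁆ ≤ ss R (insert k (l ++ [j]).toFinset) := by
  have hjk : j ≠ k := by
    rintro rfl
    exact hk (by simp)
  have hkl : k ∉ l := fun hh => hk (by simp [hh])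
  have hjl : j ∉ l := by
    intro hh
    rw [List.nodup_append] at hnd
    exact hnd.2.2 j hh j (by simp) rfl
  have hnl : l.Nodup := (List.nodup_append.1 hnd).1
  haveI hN : (ss R (insert k (l ++ [j]).toFinset)).Normal := ss_normal R _
  haveI hcc : (cc R l).Normal := cc_normal R l
  constructor
  · have h1 := ss_comm_le R (insert k l.toFinset) (Finset.insert_nonempty _ _) j (by
      simp [hjk, hjl])
    refine h1.trans (le_of_eq ?_)
    congr 1
    ext x
    simp
    tauto
  · refine three_subgroups (R j) (R k) (cc R l) _ ?_ ?_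
    · rw [commutator_comm (R k) (cc R l), ← cc_snoc R l hl k,
        ← cc_snoc R (l ++ [k]) (by simp) j]
      refine cc_le_ss R _ _ (nodup_snoc _ _ (nodup_snoc _ _ hnl hkl) ?_) ?_
      · simp [hjk, hjl]
      · ext x
        simp
    · rw [← cc_snoc R l hl j, ← cc_snoc R (l ++ [j]) (by simp) k]
      refine cc_le_ss R _ _ (nodup_snoc _ _ hnd hk) ?_
      ext x
      simp
      tauto

theorem comm_le_ss_pair (R : ι → Subgroup G) (j k : ι) (hjk : j ≠ k) :
    ⁅R j, R k⁆ ≤ ss R {k, j} := by
  have h2 : cc R ([j] ++ [k]) = ⁅R j, R k⁆ := by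
    rw [cc_snoc R [j] (by simp) k, cc_single]
  rw [← h2]
  refine cc_le_ss R _ _ (nodup_snoc _ _ (List.nodup_singleton j) (by simp [hjk.symm])) ?_
  ext x
  simp
  tauto

/-- Lifting of left-normed commutator subgroups. -/
theorem cc_le_map (φ : Γ →* G) (T : ι → Subgroup Γ) (R : ι → Subgroup G)
    [hR : ∀ i, (R i).Normal] (k : ι) (l : List ι)
    (hT : ∀ j ∈ l, (T j).map φ ≤ R j) (hb : ∀ j ∈ l, R j ≤ (T j).map φ ⊔ ⁅R j, R k⁆)
    (hne : l ≠ []) (hnd : l.Nodup) (hk : k ∉ l) :
    cc R l ≤ (cc T l).map φ ⊔ ss R (insert k l.toFinset) := by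
  induction l using List.reverseRecOn with
  | nil => exact absurd rfl hne
  | append_singleton l j ih =>
    have hjk : j ≠ k := by
      rintro rfl
      exact hk (by simp)
    have hkl : k ∉ l := fun hh => hk (by simp [hh])
    have hnl : l.Nodup := (List.nodup_append.1 hnd).1
    by_cases hl : l = []
    · subst hl
      simp only [List.nil_append, cc_single, List.toFinset_cons, List.toFinset_nil,
        insert_empty_eq]
      exact (hb j (by simp)).trans (sup_le_sup_left (comm_le_ss_pair R j k hjk) _)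
    · have ih' := ih (fun j hj => hT j (by simp [hj])) (fun j hj => hb j (by simp [hj])) hl hnl hkl
      obtain ⟨hs, ht⟩ := step_le R k l j hl hnd hk
      haveI hN : (ss R (insert k (l ++ [j]).toFinset)).Normal := ss_normal R _
      haveI hN' : (ss R (insert k l.toFinset)).Normal := ss_normal R _
      have hTl : (cc T l).map φ ≤ cc R l := by
        rw [map_cc φ T l hl]
        exact cc_mono _ _ l hl fun i hi => hT i (by simp [hi])
      rw [cc_snoc R l hl j, commutator_le]
      intro c hc a ha
      have hc' := ih' hc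
      have ha' := hb j (by simp) ha
      rw [Subgroup.mem_sup_of_normal_right] at hc' ha' ⊢
      obtain ⟨_, ⟨c', hc', rfl⟩, u, hu, rfl⟩ := hc'
      obtain ⟨_, ⟨a', ha', rfl⟩, t, ht', rfl⟩ := ha'
      refine ⟨φ ⁅c', a'⁆, ⟨_, ?_, rfl⟩, (φ ⁅c', a'⁆)⁻¹ * ⁅φ c' * u, φ a' * t⁆, ?_, by group⟩
      · rw [cc_snoc T l hl j]
        exact commutator_mem_commutator hc' ha'
      · rw [← QuotientGroup.eq_one_iff (N := ss R (insert k (l ++ [j]).toFinset))]
        change QuotientGroup.mk' _ _ = 1
        set q := QuotientGroup.mk' (ss R (insert k (l ++ [j]).toFinset)) with hq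
        have e1 : ⁅q (φ c') * q u, q (φ a') * q t⁆ = ⁅q (φ c'), q (φ a')⁆ := by
          refine comm_calc _ _ _ _ ?_ ?_
          · rw [← map_mul]
            exact (commutator_le_iff_map _ _ _).1 hs _ hu _ ha
          · exact (commutator_le_iff_map _ _ _).1 ht _ ht' _ (hTl ⟨_, hc', rfl⟩)
        rw [map_mul, map_inv, map_commutatorElement q, map_commutatorElement φ,
          map_commutatorElement q, map_mul, map_mul, e1]
        exact inv_mul_cancel _

/-- Lifting of symmetric commutator products. -/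
theorem ss_le_map (φ : Γ →* G) (T : ι → Subgroup Γ) (R : ι → Subgroup G)
    [hR : ∀ i, (R i).Normal] (k : ι) (I : Finset ι) (hI : I.Nonempty) (hk : k ∉ I)
    (hT : ∀ j ∈ I, (T j).map φ ≤ R j) (hb : ∀ j ∈ I, R j ≤ (T j).map φ ⊔ ⁅R j, R k⁆) :
    ss R I ≤ (ss T I).map φ ⊔ ss R (insert k I) := by
  refine ss_le R _ _ fun l hl1 hl2 => ?_
  have hne : l ≠ [] := by
    rintro rfl
    rw [← hl2] at hI
    simp at hI
  have hm : ∀ j ∈ l, j ∈ I := fun j hj => by rw [← hl2]; exact List.mem_toFinset.2 hj
  have := cc_le_map φ T R k l (fun j hj => hT j (hm j hj)) (fun j hj => hb j (hm j hj)) hne hl1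
    (fun hh => hk (hm k hh))
  rw [hl2] at this
  exact this.trans (sup_le_sup_right (Subgroup.map_mono (cc_le_ss T I l hl1 hl2)) _)

/-- Two homomorphisms which agree on the subgroups `T j` up to `[R j, R k]` agree on the
left-normed commutator subgroups up to the symmetric commutator product with `R k`. -/
theorem cc_agree₂ (f p : Γ →* G) (T : ι → Subgroup Γ) (R : ι → Subgroup G)
    [hR : ∀ i, (R i).Normal] (k : ι) (l : List ι)
    (hT : ∀ j ∈ l, (T j).map f ≤ R j)
    (hb : ∀ j ∈ l, ∀ a ∈ T j, (f a)⁻¹ * p a ∈ ⁅R j, R k⁆)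
    (hne : l ≠ []) (hnd : l.Nodup) (hk : k ∉ l) :
    ∀ c ∈ cc T l, (f c)⁻¹ * p c ∈ ss R (insert k l.toFinset) := by
  induction l using List.reverseRecOn with
  | nil => exact absurd rfl hne
  | append_singleton l j ih =>
    have hjk : j ≠ k := by
      rintro rfl
      exact hk (by simp)
    have hkl : k ∉ l := fun hh => hk (by simp [hh])
    have hnl : l.Nodup := (List.nodup_append.1 hnd).1
    by_cases hl : l = []
    · subst hl
      intro c hc
      simp only [List.nil_append, cc_single] at hc
      simp only [List.nil_append, List.toFinset_cons, List.toFinset_nil, insert_empty_eq]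
      exact comm_le_ss_pair R j k hjk (hb j (by simp) c hc)
    · have ih' := ih (fun j hj => hT j (by simp [hj])) (fun j hj => hb j (by simp [hj])) hl hnl hkl
      obtain ⟨hs, ht⟩ := step_le R k l j hl hnd hk
      haveI hN : (ss R (insert k (l ++ [j]).toFinset)).Normal := ss_normal R _
      have hTl : (cc T l).map f ≤ cc R l := by
        rw [map_cc f T l hl]
        exact cc_mono _ _ l hl fun i hi => hT i (by simp [hi])
      set q := QuotientGroup.mk' (ss R (insert k (l ++ [j]).toFinset)) with hq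
      have key : cc T (l ++ [j]) ≤ MonoidHom.eqLocus (q.comp p) (q.comp f) := by
        rw [cc_snoc T l hl j, commutator_le]
        intro c hc a ha
        have hs1 := ih' c hc
        have ht1 := hb j (by simp) a ha
        change q (p ⁅c, a⁆) = q (f ⁅c, a⁆)
        rw [map_commutatorElement p, map_commutatorElement f, map_commutatorElement q,
          map_commutatorElement q]
        have e1 : q (p c) = q (f c) * q ((f c)⁻¹ * p c) := by
          rw [← map_mul]; congr 1; group
        have e2 : q (p a) = q (f a) * q ((f a)⁻¹ * p a) := by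
          rw [← map_mul]; congr 1; group
        have hfa : f a ∈ R j := hT j (by simp) ⟨a, ha, rfl⟩
        rw [e1, e2]
        refine comm_calc _ _ _ _ ?_ ?_
        · rw [← map_mul]
          refine (commutator_le_iff_map _ _ _).1 hs _ hs1 _ ?_
          exact mul_mem hfa ((commutator_le_left (R j) (R k)) ht1)
        · exact (commutator_le_iff_map _ _ _).1 ht _ ht1 _ (hTl ⟨_, hc, rfl⟩)
      intro c hc
      have h1 : q (p c) = q (f c) := key hc
      rw [← QuotientGroup.eq_one_iff (N := ss R (insert k (l ++ [j]).toFinset))]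
      change q _ = 1
      rw [map_mul, map_inv, h1]
      exact inv_mul_cancel _

theorem ss_agree₂ (f p : Γ →* G) (T : ι → Subgroup Γ) (R : ι → Subgroup G)
    [hR : ∀ i, (R i).Normal] (k : ι) (I : Finset ι) (hI : I.Nonempty) (hk : k ∉ I)
    (hT : ∀ j ∈ I, (T j).map f ≤ R j)
    (hb : ∀ j ∈ I, ∀ a ∈ T j, (f a)⁻¹ * p a ∈ ⁅R j, R k⁆) :
    ∀ c ∈ ss T I, (f c)⁻¹ * p c ∈ ss R (insert k I) := by
  haveI hN : (ss R (insert k I)).Normal := ss_normal R _
  set q := QuotientGroup.mk' (ss R (insert k I)) with hq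
  have key : ss T I ≤ MonoidHom.eqLocus (q.comp p) (q.comp f) := by
    refine ss_le T _ _ ?_
    intro l hl1 hl2 c hc
    have hne : l ≠ [] := by
      rintro rfl
      rw [← hl2] at hI
      simp at hI
    have hm : ∀ j ∈ l, j ∈ I := fun j hj => by rw [← hl2]; exact List.mem_toFinset.2 hj
    have := cc_agree₂ f p T R k l (fun j hj => hT j (hm j hj)) (fun j hj => hb j (hm j hj)) hne
      hl1 (fun hh => hk (hm k hh)) c hc
    rw [hl2] at this
    change q (p c) = q (f c)
    exact (QuotientGroup.eq.2 this).symm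
  intro c hc
  have h1 : q (p c) = q (f c) := key hc
  exact QuotientGroup.eq.1 h1.symm

/-- A partially defined retraction: `p` is a homomorphism on a subgroup `Λ` containing the
subgroups `R j`, killing elements of `R k` and moving the elements of `R j` by elements of
`[R j, R k]`. -/
theorem mem_ss_of_retraction (Λ : Subgroup G) (p : Λ →* G) (R : ι → Subgroup G)
    [hR : ∀ i, (R i).Normal] (k : ι) (I : Finset ι) (hI : I.Nonempty) (hk : k ∉ I)
    (hΛ : ∀ j ∈ I, R j ≤ Λ)
    (hb : ∀ j ∈ I, ∀ a : Λ, (a : G) ∈ R j → (a : G)⁻¹ * p a ∈ ⁅R j, R k⁆)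
    (w : G) (hw : w ∈ ss R I) (hw' : ∀ hwΛ : w ∈ Λ, p ⟨w, hwΛ⟩ = 1) :
    w ∈ ss R (insert k I) := by
  let T : ι → Subgroup Λ := fun j => (R j).subgroupOf Λ
  have hmap : ∀ j ∈ I, (T j).map Λ.subtype = R j := by
    intro j hj
    rw [Subgroup.subgroupOf_map_subtype]
    exact inf_eq_left.2 (hΛ j hj)
  have h1 : (ss T I).map Λ.subtype = ss R I := by
    rw [map_ss Λ.subtype T I hI]
    exact le_antisymm (ss_mono _ _ I hI fun j hj => (hmap j hj).le)
      (ss_mono _ _ I hI fun j hj => (hmap j hj).ge)
  rw [← h1] at hw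
  obtain ⟨c, hc, hcw⟩ := hw
  have h2 := ss_agree₂ Λ.subtype p T R k I hI hk (fun j hj => (hmap j hj).le)
    (fun j hj a ha => hb j hj a ha) c hc
  have h3 : p c = 1 := by
    have hwΛ : w ∈ Λ := by rw [← hcw]; exact c.2
    have := hw' hwΛ
    have h4 : (⟨w, hwΛ⟩ : Λ) = c := Subtype.ext hcw.symm
    rwa [h4] at this
  rw [h3, mul_one] at h2
  rw [← hcw]
  exact inv_mem_iff.1 h2

end

end Pool.Agent.Lib.MP_a6d6d3_gt
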