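import Pool.Agent.Lib.MP_a6d6d3_gt.Rem.Piece

/-!
Peeling off the relators of the pieces, and the main step.
-/

namespace Pool.Agent.Lib.MP_a6d6d3_gt

open Subgroup
open scoped commutatorElement

set_option linter.unusedSectionVars false
set_option linter.style.haveILetI false

section
variable {G : Type*} [Group G] {ι : Type*} [DecidableEq ι]

theorem ss_congr (R R' : ι → Subgroup G) (I : Finset ι) (hI : I.Nonempty)
    (h : ∀ i ∈ I, R i = R' i) : ss R I = ss R' I :=
  le_antisymm (ss_mono _ _ I hI fun i hi => (h i hi).le)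
    (ss_mono _ _ I hI fun i hi => (h i hi).ge)

theorem ss_singleton (R : ι → Subgroup G) (i : ι) : ss R {i} = R i := by
  refine le_antisymm (ss_le R _ _ fun l hl1 hl2 => ?_) ?_
  · have h1 : l.length = 1 := by
      rw [← List.toFinset_card_of_nodup hl1, hl2, Finset.card_singleton]
    obtain ⟨a, rfl⟩ := List.length_eq_one_iff.1 h1
    have h2 : a = i := by simpa using hl2
    subst h2
    rw [cc_single]
  · have := cc_le_ss R {i} [i] (List.nodup_singleton i) (by simp)
    rwa [cc_single] at this

theorem ss_erase_le (R : ι → Subgroup G) [h : ∀ i, (R i).Normal] (k : ι) (I : Finset ι)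
    (hk : k ∈ I) (hI : (I.erase k).Nonempty) : ss R I ≤ ss R (I.erase k) := by
  have h1 := ss_insert_le R k (I.erase k) hI (Finset.notMem_erase _ _)
  rw [Finset.insert_erase hk] at h1
  exact h1.trans inf_le_left

theorem ss_pair_le (R : ι → Subgroup G) (i k : ι) (hik : i ≠ k) :
    ss R (insert k {i}) ≤ ⁅R i, R k⁆ := by
  refine ss_le R _ _ fun l hl1 hl2 => ?_
  have hlen : l.length = 2 := by
    rw [← List.toFinset_card_of_nodup hl1, hl2, Finset.card_insert_of_notMem (by simpa using
      hik.symm), Finset.card_singleton]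
  obtain ⟨a, b, rfl⟩ := List.length_eq_two.1 hlen
  have hab : a ≠ b := by
    intro h
    subst h
    simp at hl1
  have hcc : cc R [a, b] = ⁅R a, R b⁆ := by
    have := cc_snoc R [a] (by simp) b
    rwa [cc_single] at this
  rw [hcc]
  have ha : a = k ∨ a = i := by
    have : a ∈ ({k, i} : Finset ι) := by rw [← hl2]; simp
    simpa using this
  have hb : b = k ∨ b = i := by
    have : b ∈ ({k, i} : Finset ι) := by rw [← hl2]; simp
    simpa using this
  rcases ha with rfl | rfl
  · rcases hb with rfl | rfl
    · exact absurd rfl hab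
    · rw [commutator_comm]
  · rcases hb with rfl | rfl
    · exact le_rfl
    · exact absurd rfl hab

/-- Replacing `R j` by `[R j, R k]` in the symmetric commutator product over `I`. -/
theorem ss_update_le (R : ι → Subgroup G) [h : ∀ i, (R i).Normal] (j k : ι) (I : Finset ι)
    (hj : j ∈ I) (hk : k ∉ I) :
    ss (Function.update R j ⁅R j, R k⁆) I ≤ ss R (insert k I) := by
  have key : ∀ l : List ι, l.Nodup → j ∈ l → k ∉ l →
      cc (Function.update R j ⁅R j, R k⁆) l ≤ ss R (insert k l.toFinset) := by
    intro l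
    induction l using List.reverseRecOn with
    | nil => intro _ hj; simp at hj
    | append_singleton l i ih =>
      intro hnd hjl hkl
      have hnl : l.Nodup := (List.nodup_append.1 hnd).1
      have hil : i ∉ l := by
        intro hh
        rw [List.nodup_append] at hnd
        exact hnd.2.2 i hh i (by simp) rfl
      by_cases hij : i = j
      · subst hij
        by_cases hl : l = []
        · subst hl
          simp only [List.nil_append, cc_single, Function.update_self, List.toFinset_cons,
            List.toFinset_nil, insert_empty_eq]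
          refine comm_le_ss_pair R i k ?_
          rintro rfl
          exact hkl (by simp)
        · rw [cc_snoc _ l hl i, Function.update_self]
          have h1 : cc (Function.update R i ⁅R i, R k⁆) l ≤ cc R l := by
            refine cc_mono _ _ l hl fun t ht => ?_
            rw [Function.update_of_ne]
            rintro rfl
            exact hil ht
          refine (commutator_mono h1 le_rfl).trans ?_
          rw [commutator_comm]
          exact (step_le R k l i hl hnd hkl).2
      · have hjl' : j ∈ l := by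
          rw [List.mem_append, List.mem_singleton] at hjl
          exact hjl.resolve_right fun h => hij h.symm
        have hl : l ≠ [] := List.ne_nil_of_mem hjl'
        have hkl' : k ∉ l := fun hh => hkl (by simp [hh])
        rw [cc_snoc _ l hl i, Function.update_of_ne hij]
        exact (commutator_mono (ih hnl hjl' hkl') le_rfl).trans (step_le R k l i hl hnd hkl).1
  refine ss_le _ _ _ fun l hl1 hl2 => ?_
  have := key l hl1 (by rw [← List.mem_toFinset, hl2]; exact hj)
    (by rw [← List.mem_toFinset, hl2]; exact hk)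
  rwa [hl2] at this

end

section
variable {H : Type*} [Group H] {ι : Type*} [DecidableEq ι]

/-- The subgroup generated by the relators of a set of pieces. -/
def relS (A : ι → Subgroup H) (J : Set ι) : Subgroup (FG A) := ⨆ t : J, relSub A t

instance (A : ι → Subgroup H) (J : Set ι) : (relS A J).Normal := by
  unfold relS
  infer_instance

theorem relSub_le_relS (A : ι → Subgroup H) (J : Set ι) (s : ι) (hs : s ∈ J) :
    relSub A s ≤ relS A J :=
  le_iSup (fun t : J => relSub A t) ⟨s, hs⟩

theorem relS_le (A : ι → Subgroup H) (J : Set ι) (P : Subgroup (FG A))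
    (h : ∀ s ∈ J, relSub A s ≤ P) : relS A J ≤ P :=
  iSup_le fun t => h t.1 t.2

/-- Peeling off one piece. -/
theorem peel_step (A : ι → Subgroup H) (V : ι → Set (FG A)) (I : Finset ι) (hI : I.Nonempty)
    (s c : ι) (J : Set ι) (hs : s ∉ J)
    (hV : ∀ i ∈ I, i ≠ c → ∀ v ∈ V i, ∃ (t : ι) (a : A t), t ≠ s ∧ v = fo A t a)
    (hc : c ∈ I → relSub A s ≤ Subgroup.normalClosure (V c))
    (x : FG A) (hx : x ∈ ss (fun i => Subgroup.normalClosure (V i)) I)
    (hx' : x ∈ relS A J ⊔ relSub A s) :
    ∃ z ∈ ss (Function.update (fun i => Subgroup.normalClosure (V i)) c (relSub A s))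
        (insert c I), z⁻¹ * x ∈ relS A J ∧
      z ∈ ss (fun i => Subgroup.normalClosure (V i)) I := by
  set T : ι → Subgroup (FG A) := fun i => Subgroup.normalClosure (V i) with hT
  haveI hTn : ∀ i, (T i).Normal := fun i => by rw [hT]; infer_instance
  set T' : ι → Subgroup (FG A) := Function.update T c (relSub A s) with hT'
  haveI hTn' : ∀ i, (T' i).Normal := by
    intro i
    by_cases hi : i = c
    · subst hi
      rw [hT', Function.update_self]
      infer_instance
    · rw [hT', Function.update_of_ne hi]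
      infer_instance
  set Y := relS A J with hY
  set π := QuotientGroup.mk' Y with hπ
  have hπs : Function.Surjective π := QuotientGroup.mk'_surjective Y
  obtain ⟨Λ, p, hp1, hp2⟩ := exists_piece_retraction A s Y ⟨J, hs, rfl⟩
  -- the image of `x` is in the image of the relators of `s`
  have hπx : π x ∈ (relSub A s).map π := by
    rw [Subgroup.mem_sup_of_normal_left] at hx'
    obtain ⟨y, hy, z, hz, rfl⟩ := hx'
    refine ⟨z, hz, ?_⟩
    rw [map_mul, (QuotientGroup.eq_one_iff y).2 hy |> (fun h => (h : π y = 1)), one_mul]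
  have hmem : π x ∈ ss (fun i => (T' i).map π) (insert c I) := by
    haveI : ∀ i, ((T' i).map π).Normal := fun i => Subgroup.Normal.map (hTn' i) π hπs
    by_cases hE : (I.erase c).Nonempty
    · have h1 : insert c (I.erase c) = insert c I := by
        ext i
        simp only [Finset.mem_insert, Finset.mem_erase]
        tauto
      rw [← h1]
      refine mem_ss_of_retraction Λ p (fun i => (T' i).map π) c (I.erase c) hE
        (Finset.notMem_erase _ _) ?_ ?_ _ ?_ ?_
      · intro j hj
        have hjc : j ≠ c := Finset.ne_of_mem_erase hj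
        have hjI : j ∈ I := Finset.mem_of_mem_erase hj
        change (T' j).map π ≤ Λ
        rw [hT', Function.update_of_ne hjc]
        exact (hp2 (V j) (hV j hjI hjc)).1
      · intro j hj
        have hjc : j ≠ c := Finset.ne_of_mem_erase hj
        have hjI : j ∈ I := Finset.mem_of_mem_erase hj
        change ∀ a : Λ, (a : FG A ⧸ Y) ∈ (T' j).map π → _ ∈ ⁅(T' j).map π, (T' c).map π⁆
        rw [hT', Function.update_of_ne hjc, Function.update_self]
        exact (hp2 (V j) (hV j hjI hjc)).2
      · have h2 : x ∈ ss T (I.erase c) := by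
          by_cases hcI : c ∈ I
          · exact ss_erase_le T c I hcI hE hx
          · rwa [Finset.erase_eq_of_notMem hcI]
        have h3 : ss T (I.erase c) = ss T' (I.erase c) := by
          refine ss_congr T T' _ hE fun i hi => ?_
          rw [hT', Function.update_of_ne (Finset.ne_of_mem_erase hi)]
        rw [← map_ss π T' _ hE, ← h3]
        exact ⟨x, h2, rfl⟩
      · intro hwΛ
        exact hp1 _ hπx hwΛ
    · rw [Finset.not_nonempty_iff_eq_empty] at hE
      have h1 : insert c I = {c} := by
        have h2 : I ⊆ {c} := by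
          intro i hi
          by_contra hic
          have : i ∈ I.erase c := Finset.mem_erase.2 ⟨by simpa using hic, hi⟩
          rw [hE] at this
          simp at this
        ext i
        simp only [Finset.mem_insert, Finset.mem_singleton]
        constructor
        · rintro (h | h)
          · exact h
          · simpa using h2 h
        · exact Or.inl
      rw [h1, ss_singleton]
      change π x ∈ (T' c).map π
      rw [hT', Function.update_self]
      exact hπx
  rw [← map_ss π T' _ (Finset.insert_nonempty _ _)] at hmem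
  obtain ⟨z, hz, hzx⟩ := hmem
  refine ⟨z, hz, QuotientGroup.eq.1 hzx, ?_⟩
  by_cases hcI : c ∈ I
  · rw [Finset.insert_eq_of_mem hcI] at hz
    refine ss_mono T' T I hI (fun i _ => ?_) hz
    by_cases hi : i = c
    · subst hi
      rw [hT', Function.update_self]
      exact hc hcI
    · rw [hT', Function.update_of_ne hi]
  · have h1 := (ss_insert_le T' c I hI hcI hz).1
    have h2 : ss T' I = ss T I := by
      refine ss_congr T' T I hI fun i hi => ?_
      rw [hT', Function.update_of_ne]
      rintro rfl
      exact hcI hi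
    rwa [h2] at h1

/-- Peeling off all pieces. -/
theorem peel (A : ι → Subgroup H) (V : ι → Set (FG A)) (I : Finset ι) (hI : I.Nonempty)
    (c : ι → ι) (J₀ : Set ι) (P : Subgroup (FG A)) (hP₀ : relS A J₀ ≤ P) (J : Finset ι)
    (hJ : ∀ s ∈ J, s ∉ J₀)
    (hV : ∀ s ∈ J, ∀ i ∈ I, i ≠ c s → ∀ v ∈ V i, ∃ (t : ι) (a : A t), t ≠ s ∧ v = fo A t a)
    (hc : ∀ s ∈ J, c s ∈ I → relSub A s ≤ Subgroup.normalClosure (V (c s)))
    (hP : ∀ s ∈ J, ss (Function.update (fun i => Subgroup.normalClosure (V i)) (c s)
      (relSub A s)) (insert (c s) I) ≤ P) :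
    ∀ x ∈ ss (fun i => Subgroup.normalClosure (V i)) I, x ∈ relS A (J₀ ∪ J) → x ∈ P := by
  induction J using Finset.induction_on with
  | empty =>
    intro x _ hx
    refine hP₀ ?_
    simpa using hx
  | insert s J hsJ ih =>
    intro x hx hx'
    have ih' := ih (fun t ht => hJ t (Finset.mem_insert_of_mem ht))
      (fun t ht => hV t (Finset.mem_insert_of_mem ht))
      (fun t ht => hc t (Finset.mem_insert_of_mem ht))
      (fun t ht => hP t (Finset.mem_insert_of_mem ht))
    have hs' : s ∉ J₀ ∪ (J : Set ι) := by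
      rintro (h | h)
      · exact hJ s (Finset.mem_insert_self _ _) h
      · exact hsJ h
    have hx'' : x ∈ relS A (J₀ ∪ (J : Set ι)) ⊔ relSub A s := by
      refine relS_le A _ _ ?_ hx'
      rintro t (ht | ht)
      · exact (relSub_le_relS A _ t (Or.inl ht)).trans le_sup_left
      · rw [Finset.mem_coe, Finset.mem_insert] at ht
        rcases ht with rfl | ht
        · exact le_sup_right
        · exact (relSub_le_relS A _ t (Or.inr ht)).trans le_sup_left
    obtain ⟨z, hz1, hz2, hz3⟩ := peel_step A V I hI s (c s) (J₀ ∪ J) hs'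
      (hV s (Finset.mem_insert_self _ _)) (hc s (Finset.mem_insert_self _ _)) x hx hx''
    have h1 : z ∈ P := hP s (Finset.mem_insert_self _ _) hz1
    have h2 : z⁻¹ * x ∈ P := ih' _ (mul_mem (inv_mem hz3) hx) hz2
    have h3 : x = z * (z⁻¹ * x) := by group
    rw [h3]
    exact mul_mem h1 h2

/-- The main step. -/
theorem main_step [Fintype ι] {G : Type*} [Group G] (q : G →* H)
    (R : ι → Subgroup G) [hR : ∀ i, (R i).Normal] (k : ι) (hk : q.ker = R k)
    (A : ι → Subgroup H)
    (hbij : Function.Bijective (Monoid.CoprodI.lift fun s => (A s).subtype))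
    (φ : FG A →* G) (hφ : ∀ x, q (φ x) = fpsi A x)
    (V : ι → Set (FG A)) (I : Finset ι) (hI : I.Nonempty) (hkI : k ∉ I)
    (c : ι → G) (hRc : ∀ i ∈ I, R i = Subgroup.normalClosure {c i})
    (hcV : ∀ i ∈ I, ∃ v ∈ V i, φ v = c i)
    (hVR : ∀ i ∈ I, ∀ v ∈ V i, φ v ∈ R i)
    (hP : ∀ s, (∀ i ∈ I, ∀ v ∈ V i, ∃ (t : ι) (a : A t), t ≠ s ∧ v = fo A t a) ∨
      (relSub A s ≤ φ.ker) ∨
      ∃ j ∈ I, (∀ i ∈ I, i ≠ j → ∀ v ∈ V i, ∃ (t : ι) (a : A t), t ≠ s ∧ v = fo A t a) ∧
        relSub A s ≤ Subgroup.normalClosure (V j) ∧ (relSub A s).map φ ≤ ⁅R j, R k⁆) :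
    ss R I ⊓ R k ≤ ss R (insert k I) := by
  set T : ι → Subgroup (FG A) := fun i => Subgroup.normalClosure (V i) with hT
  have hTR : ∀ j ∈ I, (T j).map φ ≤ R j := by
    intro j hj
    rw [Subgroup.map_le_iff_le_comap]
    exact Subgroup.normalClosure_le_normal fun v hv => hVR j hj v hv
  have hsurj : Function.Surjective (fpsi A) := by
    intro h
    obtain ⟨w, rfl⟩ := hbij.2 h
    induction w using Monoid.CoprodI.induction_on with
    | one => exact ⟨1, by simp⟩
    | of s a => exact ⟨fo A s a, by rw [fpsi_fo, Monoid.CoprodI.lift_of]; rfl⟩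
    | mul x y hx hy =>
      obtain ⟨x', hx'⟩ := hx
      obtain ⟨y', hy'⟩ := hy
      exact ⟨x' * y', by rw [map_mul, map_mul, hx', hy']⟩
  have hXk : ∀ s, (relSub A s).map φ ≤ R k := by
    intro s
    rw [Subgroup.map_le_iff_le_comap]
    intro x hx
    rw [Subgroup.mem_comap, ← hk, MonoidHom.mem_ker, hφ]
    exact relSub_le_ker A s hx
  have hb : ∀ j ∈ I, R j ≤ (T j).map φ ⊔ ⁅R j, R k⁆ := by
    intro j hj
    have hcj : c j ∈ R j := by
      rw [hRc j hj]
      exact Subgroup.subset_normalClosure rfl
    obtain ⟨v, hv, hvc⟩ := hcV j hj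
    have hconj : ∀ g, g * c j * g⁻¹ ∈ (T j).map φ ⊔ ⁅R j, R k⁆ := by
      intro g
      obtain ⟨x, hx⟩ := hsurj (q g)
      have hr : (φ x)⁻¹ * g ∈ R k := by
        rw [← hk, MonoidHom.mem_ker, map_mul, map_inv, hφ, hx, inv_mul_cancel]
      have h1 : g * c j * g⁻¹ = φ (x * v * x⁻¹) *
          (φ x * ((c j)⁻¹ * ((φ x)⁻¹ * g) * c j * ((φ x)⁻¹ * g)⁻¹) * (φ x)⁻¹) := by
        rw [map_mul, map_mul, map_inv, hvc]
        group
      rw [h1]
      refine mul_mem ?_ ?_
      · refine (le_sup_left : (T j).map φ ≤ _) ⟨_, ?_, rfl⟩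
        haveI : (T j).Normal := by rw [hT]; infer_instance
        exact this.conj_mem v (Subgroup.subset_normalClosure hv) x
      · have h2 : (c j)⁻¹ * ((φ x)⁻¹ * g) * c j * ((φ x)⁻¹ * g)⁻¹ ∈ ⁅R j, R k⁆ := by
          have := commutator_mem_commutator (inv_mem hcj) hr
          rwa [commutatorElement_def, inv_inv] at this
        have h3 := (inferInstance : (⁅R j, R k⁆).Normal).conj_mem _ h2 (φ x)
        exact (le_sup_right : ⁅R j, R k⁆ ≤ (T j).map φ ⊔ ⁅R j, R k⁆) h3
    have h5 : Subgroup.normalClosure {c j} ≤ (T j).map φ ⊔ ⁅R j, R k⁆ := by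
      rw [Subgroup.normalClosure, Subgroup.closure_le]
      intro y hy
      rw [Group.mem_conjugatesOfSet_iff] at hy
      obtain ⟨c', hc', hy⟩ := hy
      rw [Set.mem_singleton_iff] at hc'
      subst hc'
      obtain ⟨g, rfl⟩ := isConj_iff.1 hy
      exact hconj g
    exact (hRc j hj).le.trans h5
  rintro w ⟨hw1, hw2⟩
  haveI hN : (ss R (insert k I)).Normal := ss_normal R _
  have hw3 := ss_le_map φ T R k I hI hkI hTR hb hw1
  rw [Subgroup.mem_sup_of_normal_right] at hw3
  obtain ⟨_, ⟨x, hx, rfl⟩, u, hu, rfl⟩ := hw3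
  have huk : u ∈ R k := (ss_insert_le R k I hI hkI hu).2
  have hxk : φ x ∈ R k := by
    have h1 : φ x = φ x * u * u⁻¹ := by group
    rw [h1]
    exact mul_mem hw2 (inv_mem huk)
  refine mul_mem ?_ hu
  have hxker : x ∈ ⨆ s, relSub A s := by
    refine ker_le_iSup_relSub A hbij.1 ?_
    rw [MonoidHom.mem_ker, ← hφ, ← MonoidHom.mem_ker, hk]
    exact hxk
  classical
  let J₀ : Set ι := {s | relSub A s ≤ φ.ker}
  let J : Finset ι := Finset.univ.filter fun s => ¬ relSub A s ≤ φ.ker
  have hchoice : ∀ s, ∃ c' : ι, s ∈ J →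
      (∀ i ∈ I, i ≠ c' → ∀ v ∈ V i, ∃ (t : ι) (a : A t), t ≠ s ∧ v = fo A t a) ∧
      (c' ∈ I → relSub A s ≤ Subgroup.normalClosure (V c')) ∧
      ss (Function.update T c' (relSub A s)) (insert c' I) ≤
        (ss R (insert k I)).comap φ := by
    intro s
    rcases hP s with h | h | ⟨j, hj, h1, h2, h3⟩
    · refine ⟨k, fun _ => ⟨fun i hi _ => h i hi, fun hkI' => absurd hkI' hkI, ?_⟩⟩
      rw [← Subgroup.map_le_iff_le_comap]
      refine map_ss_le φ _ R _ (Finset.insert_nonempty _ _) fun i hi => ?_
      rw [Finset.mem_insert] at hi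
      by_cases hik : i = k
      · subst hik
        rw [Function.update_self]
        exact hXk s
      · rw [Function.update_of_ne hik]
        exact hTR i (hi.resolve_left hik)
    · refine ⟨k, fun hs => ?_⟩
      exact absurd h (Finset.mem_filter.1 hs).2
    · refine ⟨j, fun _ => ⟨h1, fun _ => h2, ?_⟩⟩
      rw [← Subgroup.map_le_iff_le_comap, Finset.insert_eq_of_mem hj]
      refine le_trans ?_ (ss_update_le R j k I hj hkI)
      refine map_ss_le φ _ _ _ hI fun i hi => ?_
      by_cases hij : i = j
      · subst hij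
        rw [Function.update_self, Function.update_self]
        exact h3
      · rw [Function.update_of_ne hij, Function.update_of_ne hij]
        exact hTR i hi
  choose c' hc' using hchoice
  refine peel A V I hI c' J₀ ((ss R (insert k I)).comap φ) ?_ J ?_ ?_ ?_ ?_ x hx ?_
  · refine relS_le A _ _ fun s hs => ?_
    intro y hy
    rw [Subgroup.mem_comap, (hs hy : φ y = 1)]
    exact one_mem _
  · intro s hs hs'
    exact (Finset.mem_filter.1 hs).2 hs'
  · intro s hs
    exact (hc' s hs).1
  · intro s hs
    exact (hc' s hs).2.1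
  · intro s hs
    exact (hc' s hs).2.2
  · refine (iSup_le fun s => ?_ : (⨆ s, relSub A s) ≤ _) hxker
    refine relSub_le_relS A _ s ?_
    by_cases h : relSub A s ≤ φ.ker
    · exact Or.inl h
    · exact Or.inr (by simpa [J] using h)

end

end Pool.Agent.Lib.MP_a6d6d3_gt
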