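import Pool.Agent.Lib.MP_a6d6d3_gt.Rem.Lift

/-!
Internal free products, relators of the pieces, and the retraction belonging to a piece.
-/

namespace Pool.Agent.Lib.MP_a6d6d3_gt

open Subgroup
open scoped commutatorElement

set_option linter.unusedSectionVars false
set_option linter.style.haveILetI false

section perm
variable {A G : Type*} [Group A] [Group G]

/-- The permutation of the copies of `G` in the free product `*_A G` by left translation. -/
def permHom (a : A) : Monoid.CoprodI (fun _ : A => G) →* Monoid.CoprodI (fun _ : A => G) :=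
  Monoid.CoprodI.lift fun c => Monoid.CoprodI.of (M := fun _ : A => G) (i := a * c)

theorem permHom_of (a c : A) (g : G) :
    permHom a (Monoid.CoprodI.of (M := fun _ : A => G) (i := c) g) =
      Monoid.CoprodI.of (M := fun _ : A => G) (i := a * c) g := by
  unfold permHom
  rw [Monoid.CoprodI.lift_of]

theorem permHom_one : permHom (1 : A) = MonoidHom.id (Monoid.CoprodI (fun _ : A => G)) := by
  refine Monoid.CoprodI.ext_hom _ _ fun c => ?_
  ext g
  rw [MonoidHom.comp_apply, permHom_of, MonoidHom.comp_apply, MonoidHom.id_apply, one_mul]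

theorem permHom_mul (a b : A) :
    permHom (a * b) = (permHom a).comp (permHom (G := G) b) := by
  refine Monoid.CoprodI.ext_hom _ _ fun c => ?_
  ext g
  rw [MonoidHom.comp_apply, permHom_of, MonoidHom.comp_apply, MonoidHom.comp_apply, permHom_of,
    permHom_of, mul_assoc]

/-- The action of `A` on `*_A G`. -/
def permAct (A G : Type*) [Group A] [Group G] :
    A →* MulAut (Monoid.CoprodI (fun _ : A => G)) where
  toFun a := MonoidHom.toMulEquiv (permHom a) (permHom a⁻¹)
    (by rw [← permHom_mul, inv_mul_cancel, permHom_one])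
    (by rw [← permHom_mul, mul_inv_cancel, permHom_one])
  map_one' := by
    ext x
    change permHom (1 : A) x = x
    rw [permHom_one, MonoidHom.id_apply]
  map_mul' a b := by
    ext x
    change permHom (a * b) x = permHom a (permHom b x)
    rw [permHom_mul, MonoidHom.comp_apply]

theorem permAct_apply (a : A) (x : Monoid.CoprodI (fun _ : A => G)) :
    permAct A G a x = permHom a x := rfl

end perm

section
variable {H : Type*} [Group H] {ι : Type*} [DecidableEq ι]

/-- The free group on the elements of the pieces. -/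
abbrev FG (A : ι → Subgroup H) : Type _ := FreeGroup (Σ s : ι, A s)

/-- A free generator. -/
def fo (A : ι → Subgroup H) (s : ι) (a : A s) : FG A := FreeGroup.of ⟨s, a⟩

/-- The natural map of the free group to `H`. -/
def fpsi (A : ι → Subgroup H) : FG A →* H := FreeGroup.lift fun x => (x.2 : H)

theorem fpsi_fo (A : ι → Subgroup H) (s : ι) (a : A s) : fpsi A (fo A s a) = a := by
  unfold fpsi fo
  rw [FreeGroup.lift_apply_of]

/-- The relators of a piece. -/
def relSet (A : ι → Subgroup H) (s : ι) : Set (FG A) :=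
  {z | ∃ a b : A s, z = fo A s a * fo A s b * (fo A s (a * b))⁻¹}

/-- The normal closure of the relators of a piece. -/
def relSub (A : ι → Subgroup H) (s : ι) : Subgroup (FG A) := Subgroup.normalClosure (relSet A s)

instance (A : ι → Subgroup H) (s : ι) : (relSub A s).Normal := by
  unfold relSub; infer_instance

theorem relSub_le_ker (A : ι → Subgroup H) (s : ι) : relSub A s ≤ (fpsi A).ker := by
  refine Subgroup.normalClosure_le_normal ?_
  rintro z ⟨a, b, rfl⟩
  rw [SetLike.mem_coe, MonoidHom.mem_ker, map_mul, map_mul, map_inv, fpsi_fo, fpsi_fo, fpsi_fo]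
  simp

/-- A homomorphism out of the free group, given on generators. -/
def flift {K : Type*} [Group K] (A : ι → Subgroup H) (g : ∀ s, A s → K) : FG A →* K :=
  FreeGroup.lift fun x => g x.1 x.2

theorem flift_fo {K : Type*} [Group K] (A : ι → Subgroup H) (g : ∀ s, A s → K) (s : ι)
    (a : A s) : flift A g (fo A s a) = g s a := by
  unfold flift fo
  rw [FreeGroup.lift_apply_of]

theorem fg_hom_ext {K : Type*} [Group K] (A : ι → Subgroup H) (f g : FG A →* K)
    (h : ∀ s (a : A s), f (fo A s a) = g (fo A s a)) : f = g := by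
  ext ⟨s, a⟩
  exact h s a

theorem ker_le_iSup_relSub (A : ι → Subgroup H)
    (hinj : Function.Injective (Monoid.CoprodI.lift fun s => (A s).subtype)) :
    (fpsi A).ker ≤ ⨆ s, relSub A s := by
  set N : Subgroup (FG A) := ⨆ s, relSub A s with hN
  haveI hNn : N.Normal := by rw [hN]; infer_instance
  have hle : ∀ s, relSub A s ≤ N := fun s => le_iSup (fun s => relSub A s) s
  have hmul : ∀ s (a b : A s), QuotientGroup.mk' N (fo A s (a * b)) =
      QuotientGroup.mk' N (fo A s a) * QuotientGroup.mk' N (fo A s b) := by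
    intro s a b
    have h1 : fo A s a * fo A s b * (fo A s (a * b))⁻¹ ∈ N :=
      hle s (Subgroup.subset_normalClosure ⟨a, b, rfl⟩)
    have h2 : QuotientGroup.mk' N (fo A s a * fo A s b * (fo A s (a * b))⁻¹) = 1 :=
      (QuotientGroup.eq_one_iff _).2 h1
    rw [map_mul, map_inv, mul_inv_eq_one] at h2
    rw [← h2, map_mul]
  let e : ∀ s, A s →* FG A ⧸ N := fun s =>
    MonoidHom.mk' (fun a => QuotientGroup.mk' N (fo A s a)) (hmul s)
  let E : Monoid.CoprodI (fun s => A s) →* FG A ⧸ N := Monoid.CoprodI.lift e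
  let P : FG A →* Monoid.CoprodI (fun s => A s) :=
    flift A fun s a => Monoid.CoprodI.of a
  have h1 : E.comp P = QuotientGroup.mk' N := by
    refine fg_hom_ext A _ _ fun s a => ?_
    rw [MonoidHom.comp_apply, flift_fo]
    change Monoid.CoprodI.lift e (Monoid.CoprodI.of a) = _
    rw [Monoid.CoprodI.lift_of]
    rfl
  have h2 : (Monoid.CoprodI.lift fun s => (A s).subtype).comp P = fpsi A := by
    refine fg_hom_ext A _ _ fun s a => ?_
    rw [MonoidHom.comp_apply, flift_fo, Monoid.CoprodI.lift_of, fpsi_fo]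
    rfl
  intro w hw
  have h3 : P w = 1 := by
    apply hinj
    rw [map_one, ← MonoidHom.comp_apply, h2]
    exact hw
  rw [← QuotientGroup.eq_one_iff]
  change QuotientGroup.mk' N w = 1
  rw [← h1, MonoidHom.comp_apply, h3, map_one]

/-- The retraction belonging to the piece `s` modulo the relators of other pieces. -/
theorem exists_piece_retraction (A : ι → Subgroup H) (s : ι) (Y : Subgroup (FG A)) [Y.Normal]
    (hY : ∃ J : Set ι, s ∉ J ∧ Y = ⨆ t : J, relSub A t) :
    ∃ (Λ : Subgroup (FG A ⧸ Y)) (p : Λ →* FG A ⧸ Y),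
      (∀ x ∈ (relSub A s).map (QuotientGroup.mk' Y), ∀ hx : x ∈ Λ, p ⟨x, hx⟩ = 1) ∧
      ∀ V : Set (FG A), (∀ v ∈ V, ∃ (t : ι) (a : A t), t ≠ s ∧ v = fo A t a) →
        (Subgroup.normalClosure V).map (QuotientGroup.mk' Y) ≤ Λ ∧
        ∀ a : Λ, (a : FG A ⧸ Y) ∈ (Subgroup.normalClosure V).map (QuotientGroup.mk' Y) →
          (a : FG A ⧸ Y)⁻¹ * p a ∈ ⁅(Subgroup.normalClosure V).map (QuotientGroup.mk' Y),
            (relSub A s).map (QuotientGroup.mk' Y)⁆ := by
  obtain ⟨J, hsJ, hYJ⟩ := hY
  set G := FG A ⧸ Y with hG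
  set π := QuotientGroup.mk' Y with hπ
  have hYt : ∀ t, t ∈ J → relSub A t ≤ Y := by
    intro t ht
    rw [hYJ]
    exact le_iSup (fun t : J => relSub A t) ⟨t, ht⟩
  -- the semidirect product
  let W := Monoid.CoprodI (fun _ : A s => G) ⋊[permAct (A s) G] (A s)
  let gen : ∀ t, A t → W := fun t a =>
    if h : t = s then SemidirectProduct.inr (h ▸ a)
    else SemidirectProduct.inl (Monoid.CoprodI.of (M := fun _ : A s => G) (i := 1)
      (π (fo A t a)))
  let η₀ : FG A →* W := flift A gen
  have hη₀s : ∀ a : A s, η₀ (fo A s a) = SemidirectProduct.inr a := by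
    intro a
    rw [flift_fo]
    simp [gen]
  have hη₀t : ∀ t (a : A t), t ≠ s → η₀ (fo A t a) =
      SemidirectProduct.inl (Monoid.CoprodI.of (M := fun _ : A s => G) (i := 1)
        (π (fo A t a))) := by
    intro t a ht
    rw [flift_fo]
    simp [gen, ht]
  obtain ⟨κ, hκ⟩ : ∃ κ : G →* W, ∀ g, κ g =
      SemidirectProduct.inl (Monoid.CoprodI.of (M := fun _ : A s => G) (i := 1) g) :=
    ⟨SemidirectProduct.inl.comp (Monoid.CoprodI.of (M := fun _ : A s => G) (i := 1)),
      fun _ => rfl⟩
  have hη₀κ : ∀ t (a : A t), t ≠ s → η₀ (fo A t a) = κ (π (fo A t a)) := by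
    intro t a ht
    rw [hη₀t t a ht, hκ]
  have hη₀J : ∀ t ∈ J, relSub A t ≤ η₀.ker := by
    intro t ht
    have hts : t ≠ s := fun h => hsJ (h ▸ ht)
    refine Subgroup.normalClosure_le_normal ?_
    rintro z ⟨a, b, rfl⟩
    have h0 : η₀ (fo A t a * fo A t b * (fo A t (a * b))⁻¹) =
        κ (π (fo A t a * fo A t b * (fo A t (a * b))⁻¹)) := by
      simp only [map_mul, map_inv, hη₀κ t _ hts]
    have h1 : fo A t a * fo A t b * (fo A t (a * b))⁻¹ ∈ Y :=
      hYt t ht (Subgroup.subset_normalClosure ⟨a, b, rfl⟩)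
    have h2 : π (fo A t a * fo A t b * (fo A t (a * b))⁻¹) = 1 :=
      (QuotientGroup.eq_one_iff _).2 h1
    rw [SetLike.mem_coe, MonoidHom.mem_ker, h0, h2, map_one]
  have hη₀Y : Y ≤ η₀.ker := hYJ.le.trans (iSup_le fun t => hη₀J t.1 t.2)
  let η : G →* W := QuotientGroup.lift Y η₀ hη₀Y
  have hη : ∀ w, η (π w) = η₀ w := fun w => QuotientGroup.lift_mk' Y hη₀Y w
  have hηs : ∀ x ∈ (relSub A s).map π, η x = 1 := by
    rintro _ ⟨x, hx, rfl⟩
    rw [hη]
    have h1 : relSub A s ≤ η₀.ker := by
      refine Subgroup.normalClosure_le_normal ?_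
      rintro z ⟨a, b, rfl⟩
      rw [SetLike.mem_coe, MonoidHom.mem_ker, map_mul, map_mul, map_inv, hη₀s, hη₀s, hη₀s,
        ← map_mul, ← map_inv, ← map_mul, mul_inv_cancel, map_one]
    exact h1 hx
  let σ : A s → G := fun a => π (fo A s a)
  let ξ : Monoid.CoprodI (fun _ : A s => G) →* G :=
    Monoid.CoprodI.lift fun a => (MulAut.conj (σ a)).toMonoidHom
  have hξ : ∀ (a : A s) (g : G), ξ (Monoid.CoprodI.of (M := fun _ : A s => G) (i := a) g) =
      σ a * g * (σ a)⁻¹ := by
    intro a g
    change Monoid.CoprodI.lift _ _ = _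
    rw [Monoid.CoprodI.lift_of]
    rfl
  -- the subgroup where the retraction is defined
  let Λ : Subgroup G := (SemidirectProduct.rightHom.comp η).ker
  have hΛ : ∀ g : Λ, (η g).right = 1 := fun g => g.2
  let p : Λ →* G := MonoidHom.mk' (fun g => ξ (η g).left) (by
    intro g h
    have h1 : (η ((g : G) * (h : G))).left = (η g).left * (η h).left := by
      rw [map_mul, SemidirectProduct.mul_left, hΛ g]
      rw [map_one]
      rfl
    change ξ (η ((g : G) * (h : G))).left = _
    rw [h1, map_mul])
  have hp : ∀ g : Λ, p g = ξ (η g).left := fun _ => rfl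
  -- modulo the relators of `s`
  set X : Subgroup G := (relSub A s).map π with hX
  haveI hXn : X.Normal := by
    rw [hX]
    exact Subgroup.Normal.map inferInstance π (QuotientGroup.mk'_surjective Y)
  set q := QuotientGroup.mk' X with hq
  have hσmul : ∀ a b : A s, q (σ (a * b)) = q (σ a) * q (σ b) := by
    intro a b
    have h1 : π (fo A s a * fo A s b * (fo A s (a * b))⁻¹) ∈ X :=
      ⟨_, Subgroup.subset_normalClosure ⟨a, b, rfl⟩, rfl⟩
    have h2 : q (π (fo A s a * fo A s b * (fo A s (a * b))⁻¹)) = 1 :=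
      (QuotientGroup.eq_one_iff _).2 h1
    rw [map_mul, map_mul, map_inv, map_mul, map_mul, map_inv, mul_inv_eq_one] at h2
    exact h2.symm
  let σq : A s →* G ⧸ X := MonoidHom.mk' (fun a => q (σ a)) hσmul
  have hσq : ∀ a, σq a = q (σ a) := fun _ => rfl
  let θ : W →* G ⧸ X := SemidirectProduct.lift (q.comp ξ) σq (by
    intro a
    refine Monoid.CoprodI.ext_hom _ _ fun c => MonoidHom.ext fun g => ?_
    change q (ξ (permAct (A s) G a (Monoid.CoprodI.of (M := fun _ : A s => G) (i := c) g))) =
      σq a * q (ξ (Monoid.CoprodI.of (M := fun _ : A s => G) (i := c) g)) * (σq a)⁻¹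
    rw [permAct_apply, permHom_of, hξ, hξ, map_mul q, map_mul q, map_inv q, hσmul, map_mul q,
      map_mul q, map_inv q, hσq]
    group)
  have hθ : θ.comp η = q := by
    have h1 : (θ.comp η).comp π = q.comp π := by
      refine fg_hom_ext A _ _ fun t a => ?_
      change θ (η (π (fo A t a))) = q (π (fo A t a))
      rw [hη]
      by_cases ht : t = s
      · subst ht
        rw [hη₀s, SemidirectProduct.lift_inr]
        rfl
      · rw [hη₀t t a ht, SemidirectProduct.lift_inl]
        rw [MonoidHom.comp_apply, hξ, map_mul q, map_mul q, map_inv q]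
        have h2 : q (σ 1) = 1 := by
          rw [← hσq, map_one]
        rw [h2]
        simp
    exact (MonoidHom.cancel_right (QuotientGroup.mk'_surjective Y)).1 h1
  have hθ' : ∀ w : W, θ w = q (ξ w.left * σ w.right) := by
    intro w
    conv_lhs => rw [← SemidirectProduct.inl_left_mul_inr_right w]
    rw [map_mul θ, SemidirectProduct.lift_inl, SemidirectProduct.lift_inr, map_mul q]
    rfl
  have hP2 : ∀ g : G, q (ξ (η g).left * σ (η g).right) = q g := by
    intro g
    rw [← hθ', ← MonoidHom.comp_apply, hθ]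
  refine ⟨Λ, p, ?_, ?_⟩
  · intro x hx hxΛ
    rw [hp]
    change ξ (η x).left = 1
    rw [hηs x hx, SemidirectProduct.one_left, map_one]
  · intro V hV
    set T : Subgroup G := (Subgroup.normalClosure V).map π with hT
    haveI hTn : T.Normal := by
      rw [hT]
      exact Subgroup.Normal.map inferInstance π (QuotientGroup.mk'_surjective Y)
    have hTcl : T = Subgroup.normalClosure (π '' V) := by
      rw [hT, Subgroup.map_normalClosure V π (QuotientGroup.mk'_surjective Y)]
    have hηV : ∀ v ∈ V, ∃ x : Monoid.CoprodI (fun _ : A s => G),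
        η (π v) = SemidirectProduct.inl x ∧ x = Monoid.CoprodI.of (M := fun _ : A s => G)
          (i := 1) (π v) := by
      intro v hv
      obtain ⟨t, a, ht, rfl⟩ := hV v hv
      refine ⟨_, ?_, rfl⟩
      rw [hη, hη₀t t a ht]
    have hTΛ : T ≤ Λ := by
      rw [hTcl]
      haveI : Λ.Normal := MonoidHom.normal_ker _
      refine Subgroup.normalClosure_le_normal ?_
      rintro _ ⟨v, hv, rfl⟩
      obtain ⟨x, hx, -⟩ := hηV v hv
      change SemidirectProduct.rightHom (η (π v)) = 1
      rw [hx, SemidirectProduct.rightHom_inl]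
    refine ⟨hTΛ, ?_⟩
    -- the elements on which the retraction is the identity modulo `[T, X]`
    set N : Subgroup G := ⁅T, X⁆ with hNdef
    set qN := QuotientGroup.mk' N with hqN
    have key : T.subgroupOf Λ ≤ MonoidHom.eqLocus (qN.comp p) (qN.comp Λ.subtype) := by
      have h1 : T = Subgroup.closure (Group.conjugatesOfSet (π '' V)) := by
        rw [hTcl, Subgroup.normalClosure]
      have h2 : T ≤ (MonoidHom.eqLocus (qN.comp p) (qN.comp Λ.subtype)).map Λ.subtype := by
        conv_lhs => rw [h1]
        rw [Subgroup.closure_le]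
        intro y hy
        rw [Group.mem_conjugatesOfSet_iff] at hy
        obtain ⟨_, ⟨v, hv, rfl⟩, hvy⟩ := hy
        obtain ⟨g, hg⟩ := isConj_iff.1 hvy
        have hvT : π v ∈ T := by
          rw [hTcl]; exact Subgroup.subset_normalClosure ⟨v, hv, rfl⟩
        have hyT : y ∈ T := by
          rw [← hg]; exact hTn.conj_mem _ hvT g
        have hyΛ : y ∈ Λ := hTΛ hyT
        refine ⟨⟨y, hyΛ⟩, ?_, rfl⟩
        change qN (p ⟨y, hyΛ⟩) = qN y
        rw [hp]
        change qN (ξ (η y).left) = qN y
        obtain ⟨x, hx, hx1⟩ := hηV v hv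
        have h3 : (η y).left = (η g).left * permHom (η g).right x * ((η g).left)⁻¹ := by
          rw [← hg, map_mul, map_mul, map_inv, hx]
          rw [SemidirectProduct.mul_left, SemidirectProduct.mul_left,
            SemidirectProduct.mul_right, SemidirectProduct.left_inl, SemidirectProduct.right_inl,
            mul_one, SemidirectProduct.inv_left, map_inv]
          have h4 : (permAct (A s) G (η g).right) ((permAct (A s) G ((η g).right)⁻¹) (η g).left) =
              (η g).left := by
            rw [← MulAut.mul_apply, ← map_mul, mul_inv_cancel, map_one, MulAut.one_apply]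
          rw [permAct_apply]
          rw [map_inv, h4]
        have h3' : ξ (η y).left = ξ (η g).left *
            (σ (η g).right * π v * (σ (η g).right)⁻¹) * (ξ (η g).left)⁻¹ := by
          rw [h3, map_mul ξ, map_mul ξ, map_inv ξ, hx1, permHom_of, hξ, mul_one]
        rw [h3']
        set h := ξ (η g).left * σ (η g).right with hh
        have h5 : ξ (η g).left * (σ (η g).right * π v * (σ (η g).right)⁻¹) * (ξ (η g).left)⁻¹ =
            h * π v * h⁻¹ := by
          rw [hh]; group
        rw [h5, ← hg]
        have h6 : g⁻¹ * h ∈ X := QuotientGroup.eq.1 (hP2 g).symm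
        have h7 : Commute (qN (π v)) (qN (g⁻¹ * h)) :=
          (commutator_le_iff_map T X N).1 le_rfl _ hvT _ h6
        have h8 : h = g * (g⁻¹ * h) := by group
        rw [h8]
        simp only [map_mul, map_inv] at h7 ⊢
        set z := (qN g)⁻¹ * qN h with hz
        have h9 : z * qN (π v) * z⁻¹ = qN (π v) := by
          rw [← h7.eq]; group
        calc qN g * z * qN (π v) * (qN g * z)⁻¹ = qN g * (z * qN (π v) * z⁻¹) * (qN g)⁻¹ := by
              group
          _ = _ := by rw [h9]
      intro a ha
      obtain ⟨b, hb, hba⟩ := h2 ha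
      have : b = a := Subtype.ext hba
      rwa [this] at hb
    intro a ha
    have h1 : qN (p a) = qN a := key ha
    exact QuotientGroup.eq.1 h1.symm

end

end Pool.Agent.Lib.MP_a6d6d3_gt
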