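import Pool.Agent.Lib.MP_a6d6d3_gt.Rem.Peel

/-!
Removable components: the complement of the component is a split union of knots and of sublinks
with meridional sections.
-/

namespace Pool.Agent.Lib.MP_a6d6d3_gt

open Subgroup
open scoped commutatorElement

set_option linter.unusedSectionVars false
set_option linter.style.haveILetI false

section
variable {G : Type*} [Group G] {ι : Type*}

/-- The component `k` is removable: `G / R_k` is the internal free product of subgroups `A s`,
such that for `i ≠ k` the image of a conjugate `c i` of `m i` lies in the factor `A (β i)`, and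
every factor `A s`

* satisfies Kervaire's conditions with the image of `c i`, where `i` is the only index `≠ k` with
  `β i = s` (for example a knot group), or
* lifts to `G`: there is a homomorphism `f : A s → G` with `f a` in the coset `a` and
  `f (c i mod R_k) = c i` for all `i ≠ k` with `β i = s`. -/
def RemovableIn (m : ι → G) (k : ι) : Prop :=
  ∃ (A : ι → Subgroup (G ⧸ mer m k)) (β : ι → ι) (c : ι → G),
    Function.Bijective (Monoid.CoprodI.lift fun s => (A s).subtype) ∧
    (∀ i, i ≠ k → IsConj (m i) (c i) ∧ QuotientGroup.mk' (mer m k) (c i) ∈ A (β i)) ∧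
    ∀ s,
      (∃ i, i ≠ k ∧ β i = s ∧ (∀ j, j ≠ k → β j = s → j = i) ∧
        ∃ a : A s, (a : G ⧸ mer m k) = QuotientGroup.mk' (mer m k) (c i) ∧ KnotLike a) ∨
      (∃ f : A s →* G, (∀ a, QuotientGroup.mk' (mer m k) (f a) = a) ∧
        ∀ i, i ≠ k → β i = s → ∀ a : A s, (a : G ⧸ mer m k) = QuotientGroup.mk' (mer m k) (c i) →
          f a = c i)

/-- The link without the component `k` is a split union of knots: `G / R_k` is the internal free
product of subgroups `A i`, `i ≠ k`, satisfying Kervaire's conditions with the image of a conjugate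
of `m i`. -/
def CompletelySplitIn (m : ι → G) (k : ι) : Prop :=
  ∃ (A : ι → Subgroup (G ⧸ mer m k)) (c : ι → G),
    Function.Bijective (Monoid.CoprodI.lift fun s => (A s).subtype) ∧ A k = ⊥ ∧
    ∀ i, i ≠ k → IsConj (m i) (c i) ∧
      ∃ a : A i, (a : G ⧸ mer m k) = QuotientGroup.mk' (mer m k) (c i) ∧ KnotLike a

end

section
variable {G H : Type*} [Group G] [Group H] {ι : Type*}

/-- A knot-like subgroup of a quotient is contained in the image of the normal closure of a lift
of its meridian. -/
theorem knot_lifts (q : G →* H) (hq : Function.Surjective q) (S : Subgroup H) (R : Subgroup G)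
    [R.Normal] (a₀ : S) (c : G) (hc : c ∈ R) (ha : (a₀ : H) = q c) (hK : KnotLike a₀) (a : S) :
    ∃ r ∈ R, q r = a := by
  have h1 : (R.map q).Normal := Subgroup.Normal.map inferInstance q hq
  have h2 : Subgroup.normalClosure {a₀} ≤ (R.map q).comap S.subtype := by
    refine Subgroup.normalClosure_le_normal ?_
    rw [Set.singleton_subset_iff]
    exact ⟨c, hc, ha.symm⟩
  rw [hK.gen] at h2
  exact h2 (Subgroup.mem_top a)

end

section
variable {G : Type*} [Group G] {ι : Type*} [DecidableEq ι] [Fintype ι]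

/-- Lifts of the elements of the pieces. -/
theorem RemovableIn.exists_lifts {m : ι → G} {k : ι} (h : RemovableIn m k) :
    ∃ (A : ι → Subgroup (G ⧸ mer m k)) (β : ι → ι) (c : ι → G) (g : ∀ s, A s → G),
      Function.Bijective (Monoid.CoprodI.lift fun s => (A s).subtype) ∧
      (∀ i, i ≠ k → mer m i = Subgroup.normalClosure {c i}) ∧
      (∀ i, i ≠ k → QuotientGroup.mk' (mer m k) (c i) ∈ A (β i)) ∧
      (∀ s a, QuotientGroup.mk' (mer m k) (g s a) = a) ∧
      (∀ s i, i ≠ k → β i = s → ∀ a : A s,
        (a : G ⧸ mer m k) = QuotientGroup.mk' (mer m k) (c i) → g s a = c i) ∧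
      ∀ s, (∀ a b, g s (a * b) = g s a * g s b) ∨
        ∃ i, i ≠ k ∧ β i = s ∧ (∀ j, j ≠ k → β j = s → j = i) ∧ (∀ a, g s a ∈ mer m i) ∧
          ∃ a : A s, (a : G ⧸ mer m k) = QuotientGroup.mk' (mer m k) (c i) ∧ KnotLike a := by
  obtain ⟨A, β, c, h1, h2, h3⟩ := h
  have hmer : ∀ i, i ≠ k → mer m i = Subgroup.normalClosure {c i} := fun i hi =>
    mer_eq_of_isConj m i (c i) (h2 i hi).1
  have key : ∀ s, ∃ g : A s → G, (∀ a, QuotientGroup.mk' (mer m k) (g a) = a) ∧
      (∀ i, i ≠ k → β i = s → ∀ a : A s,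
        (a : G ⧸ mer m k) = QuotientGroup.mk' (mer m k) (c i) → g a = c i) ∧
      ((∀ a b, g (a * b) = g a * g b) ∨
        ∃ i, i ≠ k ∧ β i = s ∧ (∀ j, j ≠ k → β j = s → j = i) ∧ (∀ a, g a ∈ mer m i) ∧
          ∃ a : A s, (a : G ⧸ mer m k) = QuotientGroup.mk' (mer m k) (c i) ∧ KnotLike a) := by
    intro s
    rcases h3 s with ⟨i, hi, hβ, hu, a₀, ha₀, hK⟩ | ⟨f, hf1, hf2⟩
    · have hci : c i ∈ mer m i := by
        rw [hmer i hi]
        exact Subgroup.subset_normalClosure rfl
      have h4 := knot_lifts (QuotientGroup.mk' (mer m k)) (QuotientGroup.mk'_surjective _) (A s)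
        (mer m i) a₀ (c i) hci ha₀ hK
      choose r hr1 hr2 using h4
      classical
      refine ⟨fun a => if a = a₀ then c i else r a, ?_, ?_, Or.inr ⟨i, hi, hβ, hu, ?_, a₀, ha₀,
        hK⟩⟩
      · intro a
        by_cases ha : a = a₀
        · simp only [ha, if_true]
          exact ha₀.symm
        · simp only [ha, if_false]
          exact hr2 a
      · intro j hj hβj a ha
        have hji := hu j hj hβj
        subst hji
        have h5 : a = a₀ := Subtype.ext (ha.trans ha₀.symm)
        simp only [h5, if_true]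
      · intro a
        by_cases ha : a = a₀
        · simp only [ha, if_true]
          exact hci
        · simp only [ha, if_false]
          exact hr1 a
    · exact ⟨f, hf1, hf2, Or.inl fun a b => map_mul f a b⟩
  choose g hg1 hg2 hg3 using key
  exact ⟨A, β, c, g, h1, hmer, fun i hi => (h2 i hi).2, hg1, fun s i hi hβ a ha =>
    hg2 s i hi hβ a ha, hg3⟩

theorem relSub_le_ker_of_mul {H K : Type*} [Group H] [Group K] (A : ι → Subgroup H)
    (φ : FG A →* K) (s : ι)
    (h : ∀ a b : A s, φ (fo A s (a * b)) = φ (fo A s a) * φ (fo A s b)) :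
    relSub A s ≤ φ.ker := by
  refine Subgroup.normalClosure_le_normal ?_
  rintro z ⟨a, b, rfl⟩
  rw [SetLike.mem_coe, MonoidHom.mem_ker, map_mul, map_mul, map_inv, h, mul_inv_cancel]

theorem flift_spec {H G : Type*} [Group H] [Group G] (A : ι → Subgroup H) (q : G →* H)
    (g : ∀ s, A s → G) (h : ∀ s a, q (g s a) = a) (x : FG A) :
    q (flift A g x) = fpsi A x := by
  have : q.comp (flift A g) = fpsi A := by
    refine fg_hom_ext A _ _ fun s a => ?_
    rw [MonoidHom.comp_apply, flift_fo, h, fpsi_fo]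
  rw [← this, MonoidHom.comp_apply]

/-- The intersection with the normal closure of the removable component, for two components. -/
theorem RemovableIn.pair {m : ι → G} {k : ι} (h : RemovableIn m k) (i : ι) (hi : i ≠ k) :
    mer m i ⊓ mer m k ≤ ⁅mer m i, mer m k⁆ := by
  obtain ⟨A, β, c, g, hbij, hmer, hcA, hg1, hg2, hg3⟩ := h.exists_lifts
  set q := QuotientGroup.mk' (mer m k) with hq
  have hqs : Function.Surjective q := QuotientGroup.mk'_surjective _
  have hqk : q.ker = mer m k := QuotientGroup.ker_mk' _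
  set N : Subgroup G := ⁅mer m i, mer m k⁆ with hN
  have hNk : N ≤ q.ker := by
    rw [hqk, hN]
    exact commutator_le_right _ _
  set p := QuotientGroup.mk' N with hp
  have hps : Function.Surjective p := QuotientGroup.mk'_surjective _
  let q' : G ⧸ N →* G ⧸ mer m k := QuotientGroup.lift N q hNk
  have hq' : ∀ x, q' (p x) = q x := fun x => QuotientGroup.lift_mk' N hNk x
  let R' : ι → Subgroup (G ⧸ N) := fun j => (mer m j).map p
  haveI hR' : ∀ j, (R' j).Normal := fun j => Subgroup.Normal.map inferInstance p hps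
  have hker' : q'.ker = R' k := by
    ext x
    obtain ⟨y, rfl⟩ := hps x
    rw [MonoidHom.mem_ker, hq']
    constructor
    · intro hy
      have h1 : y ∈ mer m k := by rw [← hqk]; exact hy
      exact ⟨y, h1, rfl⟩
    · rintro ⟨z, hz, hzy⟩
      have h1 : z⁻¹ * y ∈ N := QuotientGroup.eq.1 hzy
      have h2 : q (z⁻¹ * y) = 1 := hNk h1
      have h3 : q z = 1 := by
        have : z ∈ q.ker := by rw [hqk]; exact hz
        exact this
      rw [map_mul, map_inv, h3, inv_one, one_mul] at h2
      exact h2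
  have hcomm : ∀ x ∈ R' i, ∀ y ∈ R' k, x * y = y * x := by
    rintro _ ⟨x, hx, rfl⟩ _ ⟨y, hy, rfl⟩
    exact ((commutator_le_iff_map (mer m i) (mer m k) N).1 le_rfl x hx y hy).eq
  have hcimer : c i ∈ mer m i := by
    rw [hmer i hi]
    exact Subgroup.subset_normalClosure rfl
  -- a homomorphic lift of the piece of `i`
  obtain ⟨σ, hσ1, hσ2⟩ : ∃ σ : A (β i) →* G ⧸ N, (∀ a, q' (σ a) = a) ∧
      ∀ a : A (β i), (a : G ⧸ mer m k) = q (c i) → σ a = p (c i) := by
    rcases hg3 (β i) with hmul | ⟨i', hi', hβ, hu, hR, a₀, ha₀, hK⟩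
    · refine ⟨p.comp (MonoidHom.mk' (g (β i)) hmul), ?_, ?_⟩
      · intro a
        rw [MonoidHom.comp_apply, hq']
        exact hg1 _ a
      · intro a ha
        rw [MonoidHom.comp_apply]
        congr 1
        exact hg2 _ i hi rfl a ha
    · have hii : i = i' := hu i hi rfl
      subst hii
      let E : Subgroup (G ⧸ N) := (A (β i)).comap q' ⊓ R' i
      let qE : E →* A (β i) := (q'.comp E.subtype).codRestrict (A (β i)) fun x => x.2.1
      have hqE : ∀ x : E, ((qE x : A (β i)) : G ⧸ mer m k) = q' x := fun _ => rfl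
      have hsurj : Function.Surjective qE := by
        intro a
        have h1 : p (g (β i) a) ∈ E := by
          refine ⟨?_, ⟨_, hR a, rfl⟩⟩
          change q' (p (g (β i) a)) ∈ A (β i)
          rw [hq', hg1]
          exact a.2
        refine ⟨⟨_, h1⟩, ?_⟩
        apply Subtype.ext
        rw [hqE]
        change q' (p (g (β i) a)) = a
        rw [hq', hg1]
      have hcen : ∀ x ∈ qE.ker, ∀ y, x * y = y * x := by
        intro x hx y
        apply Subtype.ext
        have h1 : (x : G ⧸ N) ∈ R' k := by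
          rw [← hker', MonoidHom.mem_ker, ← hqE]
          rw [MonoidHom.mem_ker.1 hx]
          rfl
        exact (hcomm y y.2.2 x h1).symm
      have hmE : p (c i) ∈ E := by
        refine ⟨?_, ⟨_, hcimer, rfl⟩⟩
        change q' (p (c i)) ∈ A (β i)
        rw [hq']
        exact hcA i hi
      obtain ⟨t, ht1, ht2⟩ := hK.exists_section qE hsurj hcen ⟨p (c i), hmE⟩ (by
        apply Subtype.ext
        rw [hqE]
        change q' (p (c i)) = a₀
        rw [hq', ha₀])
      refine ⟨E.subtype.comp t, ?_, ?_⟩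
      · intro a
        change q' ((t a : E) : G ⧸ N) = a
        rw [← hqE, ht1]
      · intro a ha
        have h1 : a = a₀ := Subtype.ext (ha.trans ha₀.symm)
        rw [h1, MonoidHom.comp_apply, ht2]
        rfl
  let g' : ∀ s, A s → G ⧸ N := fun s a => if hs : s = β i then σ (hs ▸ a) else p (g s a)
  have hg'i : ∀ a, g' (β i) a = σ a := by
    intro a
    simp [g']
  have hg'1 : ∀ s a, q' (g' s a) = a := by
    intro s a
    by_cases hs : s = β i
    · subst hs
      rw [hg'i, hσ1]
    · have : g' s a = p (g s a) := by simp [g', hs]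
      rw [this, hq', hg1]
  let φ : FG A →* G ⧸ N := flift A g'
  have hφ : ∀ x, q' (φ x) = fpsi A x := flift_spec A q' g' hg'1
  have main := main_step q' R' k hker' A hbij φ hφ
    (fun j => {v | ∃ a : A (β i), j = i ∧ (a : G ⧸ mer m k) = q (c i) ∧ v = fo A (β i) a})
    {i} (Finset.singleton_nonempty i) (by simpa using hi.symm) (fun j => p (c j)) ?_ ?_ ?_ ?_
  · have h1 : ∀ w ∈ mer m i ⊓ mer m k, w ∈ N := by
      intro w hw
      have h2 : p w ∈ ss R' {i} ⊓ R' k := by
        rw [ss_singleton]
        exact ⟨⟨w, hw.1, rfl⟩, ⟨w, hw.2, rfl⟩⟩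
      have h3 := ss_pair_le R' i k hi (main h2)
      have h4 : ⁅R' i, R' k⁆ = ⊥ := by
        rw [eq_bot_iff, commutator_le]
        intro x hx y hy
        rw [Subgroup.mem_bot, commutatorElement_eq_one_iff_mul_comm]
        exact hcomm x hx y hy
      rw [h4, Subgroup.mem_bot] at h3
      exact (QuotientGroup.eq_one_iff w).1 h3
    exact h1
  · intro j hj
    rw [Finset.mem_singleton] at hj
    subst hj
    refine (congrArg (Subgroup.map p) (hmer j hi)).trans ?_
    rw [Subgroup.map_normalClosure _ p hps, Set.image_singleton]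
  · intro j hj
    rw [Finset.mem_singleton] at hj
    subst hj
    refine ⟨fo A (β j) ⟨q (c j), hcA j hi⟩, ⟨⟨q (c j), hcA j hi⟩, rfl, rfl, rfl⟩, ?_⟩
    change flift A g' _ = _
    rw [flift_fo, hg'i]
    exact hσ2 _ rfl
  · intro j hj v hv
    obtain ⟨a, rfl, ha, rfl⟩ := hv
    change flift A g' _ ∈ _
    rw [flift_fo, hg'i, hσ2 a ha]
    exact ⟨c j, hcimer, rfl⟩
  · intro s
    by_cases hs : s = β i
    · refine Or.inr (Or.inl ?_)
      subst hs
      refine relSub_le_ker_of_mul A φ _ fun a b => ?_
      change flift A g' _ = flift A g' _ * flift A g' _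
      rw [flift_fo, flift_fo, flift_fo, hg'i, hg'i, hg'i, map_mul]
    · refine Or.inl ?_
      rintro j hj v ⟨a, -, -, rfl⟩
      exact ⟨β i, a, fun h => hs h.symm, rfl⟩

/-- The main theorem for removable components. -/
theorem RemovableIn.ss_inf_le {m : ι → G} {k : ι} (h : RemovableIn m k) (I : Finset ι)
    (hI : I.Nonempty) (hk : k ∉ I) : ss (mer m) I ⊓ mer m k ≤ ss (mer m) (insert k I) := by
  have hpair := h.pair
  obtain ⟨A, β, c, g, hbij, hmer, hcA, hg1, hg2, hg3⟩ := h.exists_lifts
  set q := QuotientGroup.mk' (mer m k) with hq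
  have hqk : q.ker = mer m k := QuotientGroup.ker_mk' _
  have hne : ∀ i ∈ I, i ≠ k := fun i hi h => hk (h ▸ hi)
  have hcimer : ∀ i, i ≠ k → c i ∈ mer m i := by
    intro i hi
    rw [hmer i hi]
    exact Subgroup.subset_normalClosure rfl
  have hφ := flift_spec A q g hg1
  refine main_step q (mer m) k hqk A hbij (flift A g) hφ
    (fun j => {v | ∃ a : A (β j), g (β j) a ∈ mer m j ∧ v = fo A (β j) a}) I hI hk c
    (fun i hi => hmer i (hne i hi)) ?_ ?_ ?_
  · intro i hi
    have h1 : g (β i) ⟨q (c i), hcA i (hne i hi)⟩ = c i := hg2 _ i (hne i hi) rfl _ rfl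
    refine ⟨fo A (β i) ⟨q (c i), hcA i (hne i hi)⟩, ⟨_, ?_, rfl⟩, ?_⟩
    · rw [h1]
      exact hcimer i (hne i hi)
    · rw [flift_fo, h1]
  · rintro i hi v ⟨a, ha, rfl⟩
    rw [flift_fo]
    exact ha
  · intro s
    rcases hg3 s with hmul | ⟨j, hj, hβ, hu, hR, a₀, ha₀, hK⟩
    · refine Or.inr (Or.inl (relSub_le_ker_of_mul A _ s fun a b => ?_))
      rw [flift_fo, flift_fo, flift_fo, hmul]
    · have hother : ∀ i ∈ I, i ≠ j → ∀ v ∈ {v | ∃ a : A (β i), g (β i) a ∈ mer m i ∧
          v = fo A (β i) a}, ∃ (t : ι) (a : A t), t ≠ s ∧ v = fo A t a := by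
        rintro i hi hij v ⟨a, -, rfl⟩
        exact ⟨β i, a, fun h => hij (hu i (hne i hi) h), rfl⟩
      by_cases hjI : j ∈ I
      · refine Or.inr (Or.inr ⟨j, hjI, hother, ?_, ?_⟩)
        · subst hβ
          refine Subgroup.normalClosure_le_normal ?_
          rintro z ⟨a, b, rfl⟩
          have h1 : ∀ a, fo A (β j) a ∈ Subgroup.normalClosure
              {v | ∃ a : A (β j), g (β j) a ∈ mer m j ∧ v = fo A (β j) a} := fun a =>
            Subgroup.subset_normalClosure ⟨a, hR a, rfl⟩
          exact mul_mem (mul_mem (h1 a) (h1 b)) (inv_mem (h1 (a * b)))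
        · rw [Subgroup.map_le_iff_le_comap]
          refine Subgroup.normalClosure_le_normal ?_
          rintro z ⟨a, b, rfl⟩
          rw [SetLike.mem_coe, Subgroup.mem_comap]
          refine hpair j hj (Subgroup.mem_inf.2 ⟨?_, ?_⟩)
          · rw [map_mul, map_mul, map_inv, flift_fo, flift_fo, flift_fo]
            exact mul_mem (mul_mem (hR a) (hR b)) (inv_mem (hR _))
          · have h1 : flift A g (fo A s a * fo A s b * (fo A s (a * b))⁻¹) ∈ q.ker := by
              rw [MonoidHom.mem_ker, hφ]
              exact relSub_le_ker A s (Subgroup.subset_normalClosure ⟨a, b, rfl⟩)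
            rwa [hqk] at h1
      · refine Or.inl fun i hi => hother i hi ?_
        rintro rfl
        exact hjI hi

end

end Pool.Agent.Lib.MP_a6d6d3_gt
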