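import Pool.Agent.Lib.MP_a6d6d3_gt.Rem.Remov

/-!
The exact sequence for forgetting a component, and the final results for removable components.
-/

namespace Pool.Agent.Lib.MP_a6d6d3_gt

open Subgroup
open scoped commutatorElement

set_option linter.unusedSectionVars false
set_option linter.style.haveILetI false

section
variable {G : Type*} [Group G] {ι : Type*} [DecidableEq ι]

/-- A single factor. -/
theorem bijective_lift_of_top {H : Type*} [Group H] (A : ι → Subgroup H) (k : ι) (hk : A k = ⊤)
    (hA : ∀ s, s ≠ k → A s = ⊥) :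
    Function.Bijective (Monoid.CoprodI.lift fun s => (A s).subtype) := by
  let L : Monoid.CoprodI (fun s => A s) →* H := Monoid.CoprodI.lift fun s => (A s).subtype
  have hmem : ∀ h : H, h ∈ A k := fun h => by rw [hk]; trivial
  let u : H →* Monoid.CoprodI (fun s => A s) :=
    (Monoid.CoprodI.of (M := fun s => A s) (i := k)).comp
      ((MonoidHom.id H).codRestrict (A k) hmem)
  have h1 : u.comp L = MonoidHom.id _ := by
    refine Monoid.CoprodI.ext_hom _ _ fun s => MonoidHom.ext fun a => ?_
    change u (Monoid.CoprodI.lift (fun s => (A s).subtype)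
      (Monoid.CoprodI.of (M := fun s => A s) (i := s) a)) =
        Monoid.CoprodI.of (M := fun s => A s) (i := s) a
    rw [Monoid.CoprodI.lift_of]
    by_cases hs : s = k
    · subst hs
      rfl
    · have ha : a = 1 := by
        apply Subtype.ext
        exact Subgroup.mem_bot.1 ((hA s hs).le a.2)
      rw [ha, map_one, map_one, map_one]
  have h2 : ∀ h, L (u h) = h := by
    intro h
    change Monoid.CoprodI.lift (fun s => (A s).subtype)
      (Monoid.CoprodI.of (M := fun s => A s) (i := k) _) = h
    rw [Monoid.CoprodI.lift_of]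
    rfl
  refine ⟨?_, fun h => ⟨u h, h2 h⟩⟩
  intro x y hxy
  have h3 : u (L x) = u (L y) := congrArg u hxy
  rw [← MonoidHom.comp_apply, ← MonoidHom.comp_apply, h1] at h3
  exact h3

theorem RemovableIn.of_section {m : ι → G} {k : ι} (h : MeridionalSection m k) :
    RemovableIn m k := by
  obtain ⟨s, hs1, hs2⟩ := h
  let A : ι → Subgroup (G ⧸ mer m k) := fun t => if t = k then ⊤ else ⊥
  have hAk : A k = ⊤ := if_pos rfl
  have hA : ∀ t, t ≠ k → A t = ⊥ := fun t ht => if_neg ht
  refine ⟨A, fun _ => k, fun i => s (QuotientGroup.mk' (mer m k) (m i)),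
    bijective_lift_of_top A k hAk hA, ?_, ?_⟩
  · intro i hi
    refine ⟨hs2 i hi, ?_⟩
    rw [hAk]
    trivial
  · intro t
    refine Or.inr ?_
    by_cases ht : t = k
    · subst ht
      refine ⟨s.comp (A t).subtype, fun a => hs1 a, ?_⟩
      intro i hi _ a ha
      change s a = _
      rw [ha, hs1]
    · refine ⟨1, ?_, ?_⟩
      · intro a
        have h0 : (a : G ⧸ mer m k) = 1 := Subgroup.mem_bot.1 ((hA t ht).le a.2)
        rw [h0, MonoidHom.one_apply, map_one]
      · intro i _ hkt
        exact absurd hkt.symm ht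

theorem RemovableIn.of_completelySplit {m : ι → G} {k : ι} (h : CompletelySplitIn m k) :
    RemovableIn m k := by
  obtain ⟨A, c, h1, h2, h3⟩ := h
  refine ⟨A, id, c, h1, ?_, ?_⟩
  · intro i hi
    obtain ⟨h4, a, ha, -⟩ := h3 i hi
    exact ⟨h4, by rw [← ha]; exact a.2⟩
  · intro s
    by_cases hs : s = k
    · subst hs
      refine Or.inr ⟨1, ?_, ?_⟩
      · intro a
        have h0 : (a : G ⧸ mer m s) = 1 := Subgroup.mem_bot.1 (h2.le a.2)
        rw [h0, MonoidHom.one_apply, map_one]
      · intro i hi hik
        exact absurd hik hi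
    · obtain ⟨-, a, ha, hK⟩ := h3 s hs
      exact Or.inl ⟨s, hs, rfl, fun j _ hj => hj, a, ha, hK⟩

end

section
variable {G : Type*} [Group G] {n : ℕ}

theorem symmetricCommutator_succAbove (m : Fin (n + 2) → G) (k : Fin (n + 2)) :
    symmetricCommutator (fun i : Fin (n + 1) => mer m (k.succAbove i)) =
      ss (mer m) (Finset.univ.erase k) := by
  refine symmetricCommutator_comp (mer m) (fun i => k.succAbove i)
    Fin.succAbove_right_injective _ ?_
  intro x
  rw [Finset.mem_erase]
  constructor
  · rintro ⟨h1, -⟩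
    exact Fin.exists_succAbove_eq h1
  · rintro ⟨i, rfl⟩
    exact ⟨Fin.succAbove_ne k i, Finset.mem_univ _⟩

theorem erase_nonempty (k : Fin (n + 2)) : (Finset.univ.erase k).Nonempty := by
  rw [← Finset.card_pos, Finset.card_erase_of_mem (Finset.mem_univ k)]
  simp

/-- The identity for a removable component. -/
theorem RemovableIn.symmetricCommutator_eq {m : Fin (n + 2) → G} {k : Fin (n + 2)}
    (h : RemovableIn m k) :
    symmetricCommutator (mer m) =
      symmetricCommutator (fun i : Fin (n + 1) => mer m (k.succAbove i)) ⊓ mer m k := by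
  rw [symmetricCommutator_succAbove, symmetricCommutator_eq_ss]
  have h1 := h.ss_inf_le (Finset.univ.erase k) (erase_nonempty k) (Finset.notMem_erase _ _)
  have h2 := ss_insert_le (mer m) k (Finset.univ.erase k) (erase_nonempty k)
    (Finset.notMem_erase _ _)
  rw [Finset.insert_erase (Finset.mem_univ k)] at h1 h2
  exact le_antisymm h2 h1

/-- If all components but two are removable. -/
theorem symmetricCommutator_eq_of_removable (m : Fin (n + 2) → G) (a b : Fin (n + 2))
    (hab : a ≠ b) (h : ∀ k, k ≠ a → k ≠ b → RemovableIn m k) :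
    symmetricCommutator (mer m) = ⁅mer m a, mer m b⁆ ⊓ ⨅ i, mer m i := by
  have key : ∀ J : Finset (Fin (n + 2)), a ∉ J → b ∉ J →
      ss (mer m) (J ∪ {b, a}) = ⁅mer m a, mer m b⁆ ⊓ ⨅ i ∈ J, mer m i := by
    intro J
    induction J using Finset.induction_on with
    | empty =>
      intro _ _
      rw [Finset.empty_union]
      have h1 : ss (mer m) {b, a} = ⁅mer m a, mer m b⁆ :=
        le_antisymm (ss_pair_le (mer m) a b hab) (comm_le_ss_pair (mer m) a b hab)
      rw [h1]
      simp
    | insert k J hkJ ih =>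
      intro ha hb
      have hka : k ≠ a := fun e => ha (e ▸ Finset.mem_insert_self _ _)
      have hkb : k ≠ b := fun e => hb (e ▸ Finset.mem_insert_self _ _)
      have ih' := ih (fun e => ha (Finset.mem_insert_of_mem e))
        (fun e => hb (Finset.mem_insert_of_mem e))
      have hk : k ∉ J ∪ {b, a} := by
        simp [hkJ, hka, hkb]
      have hne : (J ∪ {b, a}).Nonempty := ⟨a, by simp⟩
      rw [Finset.insert_union]
      have h1 : ss (mer m) (insert k (J ∪ {b, a})) = ss (mer m) (J ∪ {b, a}) ⊓ mer m k :=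
        le_antisymm (ss_insert_le (mer m) k _ hne hk) ((h k hka hkb).ss_inf_le _ hne hk)
      rw [h1, ih', Finset.iInf_insert, inf_assoc, inf_comm (mer m k)]
  have h1 := key ((Finset.univ.erase a).erase b) (by simp) (by simp)
  have h2 : (Finset.univ.erase a).erase b ∪ {b, a} = (Finset.univ : Finset (Fin (n + 2))) := by
    ext x
    simp
    tauto
  rw [h2] at h1
  rw [symmetricCommutator_eq_ss, h1]
  refine le_antisymm (le_inf inf_le_left (le_iInf fun i => ?_))
    (inf_le_inf_left _ (le_iInf₂ fun i _ => iInf_le _ i))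
  by_cases hia : i = a
  · subst hia
    exact inf_le_left.trans (commutator_le_left _ _)
  · by_cases hib : i = b
    · subst hib
      exact inf_le_left.trans (commutator_le_right _ _)
    · exact inf_le_right.trans (iInf₂_le i (by simp [hia, hib]))

/-- If all components but one are removable, then `G(L) = 1`. -/
theorem iInf_eq_of_removable (m : Fin (n + 2) → G) (k₀ : Fin (n + 2))
    (h : ∀ k, k ≠ k₀ → RemovableIn m k) : ⨅ i, mer m i = symmetricCommutator (mer m) := by
  obtain ⟨b, hb⟩ : ∃ b : Fin (n + 2), b ≠ k₀ := exists_ne k₀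
  rw [symmetricCommutator_eq_of_removable m k₀ b hb.symm fun k hk _ => h k hk]
  refine le_antisymm (le_inf ?_ le_rfl) inf_le_right
  exact (le_inf (iInf_le _ k₀) (iInf_le _ b)).trans ((h b hb).pair k₀ hb.symm)

/-- The map on the groups `G` given by forgetting the subgroup `R_k`. -/
noncomputable def forgetMap (m : Fin (n + 2) → G) (k : Fin (n + 2)) :
    LinkQuotient m →* LinkQuotient (fun i : Fin (n + 1) => m (k.succAbove i)) :=
  QuotientGroup.map _ _ (Subgroup.inclusion (le_iInf fun i => iInf_le _ (k.succAbove i))) (by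
    intro x hx
    rw [Subgroup.mem_comap, Subgroup.mem_subgroupOf]
    rw [Subgroup.mem_subgroupOf] at hx
    have h1 : symmetricCommutator (mer m) ≤
        symmetricCommutator (fun i : Fin (n + 1) => mer m (k.succAbove i)) := by
      rw [symmetricCommutator_succAbove, symmetricCommutator_eq_ss]
      exact ss_erase_le (mer m) k Finset.univ (Finset.mem_univ k) (erase_nonempty k)
    exact h1 hx)

theorem forgetMap_mk (m : Fin (n + 2) → G) (k : Fin (n + 2)) (x : (⨅ i, mer m i : Subgroup G))
    (hx : (x : G) ∈ (⨅ i, mer (fun i : Fin (n + 1) => m (k.succAbove i)) i : Subgroup G)) :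
    forgetMap m k (QuotientGroup.mk x) = QuotientGroup.mk ⟨x, hx⟩ := rfl

theorem forgetMap_injective {m : Fin (n + 2) → G} {k : Fin (n + 2)} (h : RemovableIn m k) :
    Function.Injective (forgetMap m k) := by
  rw [injective_iff_map_eq_one]
  intro x hx
  obtain ⟨x, rfl⟩ := QuotientGroup.mk_surjective x
  have hx' : (x : G) ∈ (⨅ i, mer (fun i : Fin (n + 1) => m (k.succAbove i)) i : Subgroup G) :=
    (le_iInf fun i => iInf_le _ (k.succAbove i) :
      (⨅ i, mer m i : Subgroup G) ≤ ⨅ i : Fin (n + 1), mer m (k.succAbove i)) x.2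
  rw [forgetMap_mk m k x hx', QuotientGroup.eq_one_iff, Subgroup.mem_subgroupOf] at hx
  rw [QuotientGroup.eq_one_iff, Subgroup.mem_subgroupOf, h.symmetricCommutator_eq]
  exact ⟨hx, (iInf_le (fun i => mer m i) k) x.2⟩

theorem map_mer {H : Type*} [Group H] (q : G →* H) (hq : Function.Surjective q)
    {κ : Type*} (m : κ → G) (i : κ) : (mer m i).map q = mer (fun j => q (m j)) i := by
  unfold mer
  rw [Subgroup.map_normalClosure _ q hq, Set.image_singleton]

theorem map_symmetricCommutator {H : Type*} [Group H] (q : G →* H) {N : ℕ}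
    (R : Fin (N + 1) → Subgroup G) :
    (symmetricCommutator R).map q = symmetricCommutator (fun i => (R i).map q) := by
  rw [symmetricCommutator_eq_ss, symmetricCommutator_eq_ss,
    map_ss q R Finset.univ ⟨0, Finset.mem_univ _⟩]

/-- The map to the group `G` of the link without the component `k`. -/
noncomputable def toSublink (m : Fin (n + 2) → G) (k : Fin (n + 2)) :
    LinkQuotient (fun i : Fin (n + 1) => m (k.succAbove i)) →*
      LinkQuotient (fun i : Fin (n + 1) => QuotientGroup.mk' (mer m k) (m (k.succAbove i))) :=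
  QuotientGroup.map _ _
    (((QuotientGroup.mk' (mer m k)).comp (Subgroup.subtype _)).codRestrict _ fun x => by
      rw [Subgroup.mem_iInf]
      intro i
      rw [← map_mer (QuotientGroup.mk' (mer m k)) (QuotientGroup.mk'_surjective _)]
      exact ⟨x, (Subgroup.mem_iInf.1 x.2) i, rfl⟩) (by
    intro x hx
    rw [Subgroup.mem_subgroupOf] at hx
    rw [Subgroup.mem_comap, Subgroup.mem_subgroupOf]
    have h1 := map_symmetricCommutator (QuotientGroup.mk' (mer m k))
      (mer (fun i : Fin (n + 1) => m (k.succAbove i)))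
    have h2 : (fun i => (mer (fun i : Fin (n + 1) => m (k.succAbove i)) i).map
        (QuotientGroup.mk' (mer m k))) =
        mer (fun i : Fin (n + 1) => QuotientGroup.mk' (mer m k) (m (k.succAbove i))) := by
      funext i
      exact map_mer _ (QuotientGroup.mk'_surjective _) _ i
    rw [h2] at h1
    rw [← h1]
    exact ⟨x, hx, rfl⟩)

theorem toSublink_mk (m : Fin (n + 2) → G) (k : Fin (n + 2))
    (x : (⨅ i, mer (fun i : Fin (n + 1) => m (k.succAbove i)) i : Subgroup G))
    (hx : QuotientGroup.mk' (mer m k) (x : G) ∈ (⨅ i, mer (fun i : Fin (n + 1) =>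
      QuotientGroup.mk' (mer m k) (m (k.succAbove i))) i : Subgroup (G ⧸ mer m k))) :
    toSublink m k (QuotientGroup.mk x) = QuotientGroup.mk ⟨_, hx⟩ := rfl

theorem mk_mem_iInf (m : Fin (n + 2) → G) (k : Fin (n + 2))
    (x : (⨅ i, mer (fun i : Fin (n + 1) => m (k.succAbove i)) i : Subgroup G)) :
    QuotientGroup.mk' (mer m k) (x : G) ∈ (⨅ i, mer (fun i : Fin (n + 1) =>
      QuotientGroup.mk' (mer m k) (m (k.succAbove i))) i : Subgroup (G ⧸ mer m k)) := by
  rw [Subgroup.mem_iInf]
  intro i
  rw [← map_mer (QuotientGroup.mk' (mer m k)) (QuotientGroup.mk'_surjective _)]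
  exact ⟨x, (Subgroup.mem_iInf.1 x.2) i, rfl⟩

/-- Exactness in the middle. -/
theorem range_forgetMap (m : Fin (n + 2) → G) (k : Fin (n + 2)) :
    (forgetMap m k).range = (toSublink m k).ker := by
  set q := QuotientGroup.mk' (mer m k) with hq
  ext y
  obtain ⟨y, rfl⟩ := QuotientGroup.mk_surjective y
  have hy' := mk_mem_iInf m k y
  have h1 := map_symmetricCommutator q (mer (fun i : Fin (n + 1) => m (k.succAbove i)))
  have h2 : (fun i => (mer (fun i : Fin (n + 1) => m (k.succAbove i)) i).map q) =
      mer (fun i : Fin (n + 1) => q (m (k.succAbove i))) := by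
    funext i
    exact map_mer _ (QuotientGroup.mk'_surjective _) _ i
  rw [h2] at h1
  constructor
  · rintro ⟨x, hx⟩
    obtain ⟨x, rfl⟩ := QuotientGroup.mk_surjective x
    have hx' : (x : G) ∈ (⨅ i, mer (fun i : Fin (n + 1) => m (k.succAbove i)) i : Subgroup G) :=
      (le_iInf fun i => iInf_le _ (k.succAbove i) :
        (⨅ i, mer m i : Subgroup G) ≤ ⨅ i : Fin (n + 1), mer m (k.succAbove i)) x.2
    rw [← hx, forgetMap_mk m k x hx', MonoidHom.mem_ker,
      toSublink_mk m k ⟨x, hx'⟩ (mk_mem_iInf m k ⟨x, hx'⟩), QuotientGroup.eq_one_iff,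
      Subgroup.mem_subgroupOf]
    have h3 : q (x : G) = 1 := (QuotientGroup.eq_one_iff _).2 ((iInf_le (fun i => mer m i) k) x.2)
    change q (x : G) ∈ _
    rw [h3]
    exact one_mem _
  · intro hy
    rw [MonoidHom.mem_ker, toSublink_mk m k y hy', QuotientGroup.eq_one_iff,
      Subgroup.mem_subgroupOf] at hy
    change q (y : G) ∈ _ at hy
    rw [← h1] at hy
    obtain ⟨z, hz, hzy⟩ := hy
    have hzi : z ∈ (⨅ i, mer (fun i : Fin (n + 1) => m (k.succAbove i)) i : Subgroup G) :=
      symmetricCommutator_le_iInf _ hz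
    have hx1 : z⁻¹ * (y : G) ∈ mer m k := QuotientGroup.eq.1 hzy
    have hx2 : z⁻¹ * (y : G) ∈
        (⨅ i, mer (fun i : Fin (n + 1) => m (k.succAbove i)) i : Subgroup G) :=
      mul_mem (inv_mem hzi) y.2
    have hx : z⁻¹ * (y : G) ∈ (⨅ i, mer m i : Subgroup G) := by
      rw [Subgroup.mem_iInf]
      intro i
      by_cases hik : i = k
      · rw [hik]; exact hx1
      · obtain ⟨j, rfl⟩ := Fin.exists_succAbove_eq hik
        exact (Subgroup.mem_iInf.1 hx2) j
    refine ⟨QuotientGroup.mk ⟨z⁻¹ * y, hx⟩, ?_⟩
    rw [forgetMap_mk m k ⟨z⁻¹ * y, hx⟩ hx2, QuotientGroup.eq, Subgroup.mem_subgroupOf]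
    change (z⁻¹ * (y : G))⁻¹ * y ∈ _
    have h4 : (z⁻¹ * (y : G))⁻¹ * y = (y : G)⁻¹ * z * y := by group
    rw [h4]
    have h5 := (inferInstance : (symmetricCommutator
      (mer (fun i : Fin (n + 1) => m (k.succAbove i)))).Normal).conj_mem z hz (y : G)⁻¹
    rwa [inv_inv] at h5

theorem toSublink_surjective {m : Fin (n + 2) → G} {k : Fin (n + 2)}
    (h : MeridionalSection m k) : Function.Surjective (toSublink m k) := by
  obtain ⟨s, hs1, hs2⟩ := h
  intro y
  obtain ⟨y, rfl⟩ := QuotientGroup.mk_surjective y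
  have hx : s (y : G ⧸ mer m k) ∈
      (⨅ i, mer (fun i : Fin (n + 1) => m (k.succAbove i)) i : Subgroup G) := by
    rw [Subgroup.mem_iInf]
    intro i
    have h1 : mer (fun i : Fin (n + 1) => QuotientGroup.mk' (mer m k) (m (k.succAbove i))) i ≤
        (mer m (k.succAbove i)).comap s := by
      refine Subgroup.normalClosure_le_normal ?_
      rw [Set.singleton_subset_iff]
      change s _ ∈ mer m (k.succAbove i)
      rw [mer_eq_of_isConj m (k.succAbove i) _ (hs2 _ (Fin.succAbove_ne k i))]
      exact Subgroup.subset_normalClosure rfl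
    exact h1 ((Subgroup.mem_iInf.1 y.2) i)
  refine ⟨QuotientGroup.mk ⟨_, hx⟩, ?_⟩
  rw [toSublink_mk m k ⟨_, hx⟩ (mk_mem_iInf m k ⟨_, hx⟩)]
  congr 1
  apply Subtype.ext
  exact hs1 _

/-- The isomorphism if the group of the sublink is trivial. -/
theorem forgetMap_bijective {m : Fin (n + 2) → G} {k : Fin (n + 2)} (h : RemovableIn m k)
    (h' : Subsingleton (LinkQuotient
      (fun i : Fin (n + 1) => QuotientGroup.mk' (mer m k) (m (k.succAbove i))))) :
    Function.Bijective (forgetMap m k) := by
  refine ⟨forgetMap_injective h, ?_⟩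
  rw [← MonoidHom.range_eq_top, range_forgetMap, eq_top_iff]
  intro x _
  rw [MonoidHom.mem_ker]
  exact Subsingleton.elim _ _

/-- A split union of knots has trivial group `G`. -/
theorem CompletelySplitIn.subsingleton {m : Fin (n + 2) → G} {k : Fin (n + 2)}
    (h : CompletelySplitIn m k) : Subsingleton (LinkQuotient
      (fun i : Fin (n + 1) => QuotientGroup.mk' (mer m k) (m (k.succAbove i)))) := by
  obtain ⟨A, c, hbij, hAk, hc⟩ := h
  set q := QuotientGroup.mk' (mer m k) with hq
  have hqs : Function.Surjective q := QuotientGroup.mk'_surjective _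
  set m' : Fin (n + 1) → G ⧸ mer m k := fun i => q (m (k.succAbove i)) with hm'
  have hmer : ∀ i : Fin (n + 1), mer m' i = Subgroup.normalClosure {q (c (k.succAbove i))} := by
    intro i
    refine mer_eq_of_isConj m' i _ ?_
    exact MonoidHom.map_isConj q (hc _ (Fin.succAbove_ne k i)).1
  let e := MulEquiv.ofBijective (Monoid.CoprodI.lift fun s => (A s).subtype) hbij
  have he : ∀ s (a : A s), e.symm a = Monoid.CoprodI.of (M := fun s => A s) (i := s) a := by
    intro s a
    rw [MulEquiv.symm_apply_eq]
    change (a : G ⧸ mer m k) = Monoid.CoprodI.lift (fun s => (A s).subtype)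
      (Monoid.CoprodI.of (M := fun s => A s) (i := s) a)
    rw [Monoid.CoprodI.lift_of]
    rfl
  have hretr : ∀ i : Fin (n + 1), ∃ p : G ⧸ mer m k →* G ⧸ mer m k,
      (∀ a ∈ mer m' i, p a = 1) ∧
      ∀ j, j ≠ i → ∀ a ∈ mer m' j, a⁻¹ * p a ∈ ⁅mer m' j, mer m' i⁆ := by
    intro i
    set s := k.succAbove i with hs
    have hsk : s ≠ k := Fin.succAbove_ne k i
    let P : Monoid.CoprodI (fun t => A t) →* G ⧸ mer m k :=
      Monoid.CoprodI.lift fun t => if t = s then 1 else (A t).subtype
    let p : G ⧸ mer m k →* G ⧸ mer m k := P.comp e.symm.toMonoidHom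
    have hps : ∀ a : A s, p a = 1 := by
      intro a
      change P (e.symm a) = 1
      rw [he]
      change Monoid.CoprodI.lift _ (Monoid.CoprodI.of (M := fun s => A s) (i := s) a) = 1
      rw [Monoid.CoprodI.lift_of]
      simp
    have hpt : ∀ t, t ≠ s → ∀ a : A t, p a = a := by
      intro t ht a
      change P (e.symm a) = a
      rw [he]
      change Monoid.CoprodI.lift (fun t => if t = s then 1 else (A t).subtype)
        (Monoid.CoprodI.of (M := fun s => A s) (i := t) a) = (a : G ⧸ mer m k)
      rw [Monoid.CoprodI.lift_of]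
      simp [ht]
    obtain ⟨-, a₀, ha₀, hK⟩ := hc s hsk
    have hAs : ∀ a : A s, (a : G ⧸ mer m k) ∈ mer m' i := by
      intro a
      have h1 : Subgroup.normalClosure {a₀} ≤ (mer m' i).comap (A s).subtype := by
        refine Subgroup.normalClosure_le_normal ?_
        rw [Set.singleton_subset_iff]
        change (a₀ : G ⧸ mer m k) ∈ mer m' i
        rw [ha₀, hmer i]
        exact Subgroup.subset_normalClosure rfl
      rw [hK.gen] at h1
      exact h1 (Subgroup.mem_top a)
    have hcoset : ∀ g, g⁻¹ * p g ∈ mer m' i := by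
      have h1 : (QuotientGroup.mk' (mer m' i)).comp (p.comp e.toMonoidHom) =
          (QuotientGroup.mk' (mer m' i)).comp e.toMonoidHom := by
        refine Monoid.CoprodI.ext_hom _ _ fun t => MonoidHom.ext fun a => ?_
        change QuotientGroup.mk' (mer m' i) (p (e (Monoid.CoprodI.of (M := fun s => A s)
          (i := t) a))) =
          QuotientGroup.mk' (mer m' i) (e (Monoid.CoprodI.of (M := fun s => A s) (i := t) a))
        have h2 : e (Monoid.CoprodI.of (M := fun s => A s) (i := t) a) =
            (a : G ⧸ mer m k) := by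
          rw [← he, MulEquiv.apply_symm_apply]
        rw [h2]
        by_cases ht : t = s
        · subst ht
          rw [hps, map_one]
          exact ((QuotientGroup.eq_one_iff _).2 (hAs a)).symm
        · rw [hpt t ht]
      intro g
      refine QuotientGroup.eq.1 ?_
      have h3 := DFunLike.congr_fun h1 (e.symm g)
      change QuotientGroup.mk' (mer m' i) (p (e (e.symm g))) =
        QuotientGroup.mk' (mer m' i) (e (e.symm g)) at h3
      rw [MulEquiv.apply_symm_apply] at h3
      exact h3.symm
    refine ⟨p, ?_, ?_⟩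
    · have h1 : mer m' i ≤ p.ker := by
        rw [hmer i]
        refine Subgroup.normalClosure_le_normal ?_
        rw [Set.singleton_subset_iff, SetLike.mem_coe, MonoidHom.mem_ker, ← ha₀]
        exact hps a₀
      exact fun a ha => h1 ha
    · intro j hj
      refine retraction_agree (mer m' j) (mer m' i) {q (c (k.succAbove j))} (hmer j) p hcoset ?_
      intro y hy
      rw [Set.mem_singleton_iff] at hy
      subst hy
      obtain ⟨-, a, ha, -⟩ := hc (k.succAbove j) (Fin.succAbove_ne k j)
      rw [← ha, hpt _ (fun e => hj (Fin.succAbove_right_injective e)), inv_mul_cancel]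
      exact one_mem _
  refine linkQuotient_subsingleton m' ?_
  exact iInf_eq_symmetricCommutator (mer m') 0 fun i _ => hretr i

end

end Pool.Agent.Lib.MP_a6d6d3_gt
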