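import Pool.Agent.Lib.MP_a6d6d3_gt.Rem.Seq

/-!
Removable components in terms of homomorphisms onto free products, and the maps of the exact
sequence for forgetting a component.
-/

namespace Pool.Agent.Lib.MP_a6d6d3_gt

open Subgroup
open scoped commutatorElement

set_option linter.unusedSectionVars false
set_option linter.style.haveILetI false

universe u

/-- A free decomposition of the group of the link without the component `k`: a homomorphism `q` of
`G` onto the free product of the groups `A s`, with kernel the normal closure of `m k`, such that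
for `i ≠ k` it maps a conjugate `c i` of `m i` to an element `a i` of the factor `A (β i)`. -/
structure Splitting {G : Type u} [Group G] {ι : Type*} (m : ι → G) (k : ι) where
  /-- the factors -/
  A : ι → Type u
  /-- the group structures -/
  [grp : ∀ s, Group (A s)]
  /-- the homomorphism -/
  q : G →* Monoid.CoprodI A
  surj : Function.Surjective q
  ker : q.ker = mer m k
  /-- the factor of the component `i` -/
  β : ι → ι
  /-- a conjugate of the meridian of the component `i` -/
  c : ι → G
  conj : ∀ i, i ≠ k → IsConj (m i) (c i)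
  /-- its image -/
  a : ∀ i, A (β i)
  image : ∀ i, i ≠ k → q (c i) = Monoid.CoprodI.of (a i)

attribute [instance] Splitting.grp

section
variable {G : Type u} [Group G] {ι : Type*} {m : ι → G} {k : ι}

/-- `g` is mapped to the element `x` of the factor `A s`. -/
def Splitting.Over (S : Splitting m k) {s : ι} (g : G) (x : S.A s) : Prop :=
  S.q g = Monoid.CoprodI.of x

/-- The factor `A s` contains the image of one meridian only, and satisfies Kervaire's conditions
with it (for example the group of a knot and its meridian). -/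
def Splitting.KnotPiece (S : Splitting m k) (s : ι) : Prop :=
  ∃ i, i ≠ k ∧ S.β i = s ∧ (∀ j, j ≠ k → S.β j = s → j = i) ∧ KnotLike (S.a i)

/-- The factor `A s` lifts to `G` together with the images of the meridians contained in it. -/
def Splitting.LiftPiece (S : Splitting m k) (s : ι) : Prop :=
  ∃ f : S.A s →* G, (∀ x, S.Over (f x) x) ∧
    ∀ i, i ≠ k → S.β i = s → ∀ x : S.A s, S.Over (S.c i) x → f x = S.c i

/-- The component `k` is removable. -/
def Removable (m : ι → G) (k : ι) : Prop :=
  ∃ S : Splitting m k, ∀ s, S.KnotPiece s ∨ S.LiftPiece s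

/-- The link without the component `k` is a split union of knots. -/
def CompletelySplit (m : ι → G) (k : ι) : Prop :=
  ∃ S : Splitting m k, S.β = id ∧ Subsingleton (S.A k) ∧ ∀ i, i ≠ k → KnotLike (S.a i)

end

section
variable {G : Type u} [Group G] {n : ℕ}

/-- The group `G(L)`. -/
def LGrp (m : Fin n → G) : Type u := LinkQuotient m

instance (m : Fin n → G) : Group (LGrp m) := inferInstanceAs (Group (LinkQuotient m))

/-- The meridians of the components different from `k`. -/
def restMer (m : Fin (n + 2) → G) (k : Fin (n + 2)) : Fin (n + 1) → G := fun i => m (k.succAbove i)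

/-- The group of the link without the component `k`. -/
def SubGrp {ι : Type*} (m : ι → G) (k : ι) : Type u := G ⧸ mer m k

instance {ι : Type*} (m : ι → G) (k : ι) : Group (SubGrp m k) := inferInstanceAs (Group (G ⧸ mer m k))

/-- The meridians of the link without the component `k`. -/
def subMer (m : Fin (n + 2) → G) (k : Fin (n + 2)) : Fin (n + 1) → SubGrp m k :=
  fun i => QuotientGroup.mk (restMer m k i)

end

section
variable {G : Type u} [Group G] {ι : Type*} [DecidableEq ι] {m : ι → G} {k : ι}

theorem RemovableIn.removable (h : RemovableIn m k) : Removable m k := by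
  classical
  obtain ⟨A, β, c, h1, h2, h3⟩ := h
  let e : Monoid.CoprodI (fun s => ↥(A s)) ≃* G ⧸ mer m k := MulEquiv.ofBijective _ h1
  have he : ∀ (s : ι) (x : A s), e.symm x = Monoid.CoprodI.of (M := fun s => ↥(A s)) x := by
    intro s x
    rw [MulEquiv.symm_apply_eq]
    change (x : G ⧸ mer m k) = Monoid.CoprodI.lift (fun s => (A s).subtype)
      (Monoid.CoprodI.of (M := fun s => A s) (i := s) x)
    rw [Monoid.CoprodI.lift_of]
    rfl
  have he' : ∀ (s : ι) (x : A s) (g : G), e.symm (QuotientGroup.mk' (mer m k) g) =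
      Monoid.CoprodI.of (M := fun s => ↥(A s)) x ↔ (x : G ⧸ mer m k) =
        QuotientGroup.mk' (mer m k) g := by
    intro s x g
    rw [← he]
    exact ⟨fun h => (e.symm.injective h).symm, fun h => by rw [h]⟩
  let a : ∀ i, A (β i) := fun i => if h : i ≠ k then ⟨_, (h2 i h).2⟩ else 1
  have ha : ∀ i, i ≠ k → (a i : G ⧸ mer m k) = QuotientGroup.mk' (mer m k) (c i) := by
    intro i hi
    have : a i = ⟨_, (h2 i hi).2⟩ := dif_pos hi
    rw [this]
  let S : Splitting m k :=
    { A := fun s => ↥(A s)
      q := e.symm.toMonoidHom.comp (QuotientGroup.mk' (mer m k))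
      surj := e.symm.surjective.comp (QuotientGroup.mk'_surjective _)
      ker := by
        ext x
        rw [MonoidHom.mem_ker]
        change e.symm (QuotientGroup.mk' (mer m k) x) = 1 ↔ _
        rw [map_eq_one_iff _ e.symm.injective]
        exact QuotientGroup.eq_one_iff x
      β := β
      c := c
      conj := fun i hi => (h2 i hi).1
      a := a
      image := fun i hi => (he' _ _ _).2 (ha i hi) }
  refine ⟨S, fun s => ?_⟩
  rcases h3 s with ⟨i, hi, hβ, hu, a₀, ha₀, hK⟩ | ⟨f, hf1, hf2⟩
  · refine Or.inl ⟨i, hi, hβ, hu, ?_⟩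
    subst hβ
    have h4 : a i = a₀ := Subtype.ext ((ha i hi).trans ha₀.symm)
    change KnotLike (a i)
    rw [h4]
    exact hK
  · refine Or.inr ⟨f, fun x => (he' _ _ _).2 (hf1 x).symm, ?_⟩
    intro i hi hβ x hx
    exact hf2 i hi hβ x ((he' _ _ _).1 hx)

/-- The factors as subgroups of the quotient. -/
theorem Splitting.exists_equiv (S : Splitting m k) :
    ∃ (A : ι → Subgroup (G ⧸ mer m k)) (ε : ∀ s, S.A s ≃* A s),
      Function.Bijective (Monoid.CoprodI.lift fun s => (A s).subtype) ∧
      ∀ (s : ι) (x : S.A s) (g : G), S.q g = Monoid.CoprodI.of x ↔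
        ((ε s x : A s) : G ⧸ mer m k) = QuotientGroup.mk' (mer m k) g := by
  let φ : G ⧸ mer m k →* Monoid.CoprodI S.A := QuotientGroup.lift (mer m k) S.q S.ker.ge
  have hφ : ∀ x, φ (QuotientGroup.mk' (mer m k) x) = S.q x := fun x =>
    QuotientGroup.lift_mk' (mer m k) S.ker.ge x
  have hφb : Function.Bijective φ := by
    constructor
    · rw [injective_iff_map_eq_one]
      intro x hx
      obtain ⟨x, rfl⟩ := QuotientGroup.mk'_surjective _ x
      rw [hφ, ← MonoidHom.mem_ker, S.ker] at hx
      exact (QuotientGroup.eq_one_iff x).2 hx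
    · intro y
      obtain ⟨x, rfl⟩ := S.surj y
      exact ⟨_, hφ x⟩
  let e : Monoid.CoprodI S.A ≃* G ⧸ mer m k := (MulEquiv.ofBijective φ hφb).symm
  have he : ∀ x g, e x = QuotientGroup.mk' (mer m k) g ↔ S.q g = x := by
    intro x g
    change (MulEquiv.ofBijective φ hφb).symm x = _ ↔ _
    rw [MulEquiv.symm_apply_eq]
    change x = φ (QuotientGroup.mk' (mer m k) g) ↔ _
    rw [hφ]
    exact eq_comm
  let j : ∀ s, S.A s →* G ⧸ mer m k := fun s =>
    e.toMonoidHom.comp (Monoid.CoprodI.of (M := S.A) (i := s))
  have hj : ∀ s, Function.Injective (j s) := fun s =>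
    e.injective.comp (Monoid.CoprodI.of_injective (M := S.A) s)
  let A : ι → Subgroup (G ⧸ mer m k) := fun s => (j s).range
  let ε : ∀ s, S.A s ≃* A s := fun s => MonoidHom.ofInjective (hj s)
  have hε : ∀ s x, ((ε s x : A s) : G ⧸ mer m k) = e (Monoid.CoprodI.of (M := S.A) x) :=
    fun s x => rfl
  refine ⟨A, ε, ?_, ?_⟩
  · let Ψ : Monoid.CoprodI S.A →* Monoid.CoprodI (fun s => ↥(A s)) :=
      Monoid.CoprodI.lift fun s => (Monoid.CoprodI.of (M := fun s => ↥(A s)) (i := s)).comp
        (ε s).toMonoidHom
    let Ψ' : Monoid.CoprodI (fun s => ↥(A s)) →* Monoid.CoprodI S.A :=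
      Monoid.CoprodI.lift fun s => (Monoid.CoprodI.of (M := S.A) (i := s)).comp
        (ε s).symm.toMonoidHom
    have hΨ : ∀ (s : ι) (x : S.A s), Ψ (Monoid.CoprodI.of (M := S.A) x) =
        Monoid.CoprodI.of (M := fun s => ↥(A s)) (ε s x) := by
      intro s x
      simp only [Ψ]
      rw [Monoid.CoprodI.lift_of]
      rfl
    have hΨ' : ∀ (s : ι) (x : A s), Ψ' (Monoid.CoprodI.of (M := fun s => ↥(A s)) x) =
        Monoid.CoprodI.of (M := S.A) ((ε s).symm x) := by
      intro s x
      simp only [Ψ']
      rw [Monoid.CoprodI.lift_of]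
      rfl
    have h1 : Ψ.comp Ψ' = MonoidHom.id _ := by
      refine Monoid.CoprodI.ext_hom _ _ fun s => MonoidHom.ext fun x => ?_
      change Ψ (Ψ' (Monoid.CoprodI.of (M := fun s => ↥(A s)) x)) =
        Monoid.CoprodI.of (M := fun s => ↥(A s)) x
      rw [hΨ', hΨ, MulEquiv.apply_symm_apply]
    have h2 : (Monoid.CoprodI.lift fun s => (A s).subtype).comp Ψ = e.toMonoidHom := by
      refine Monoid.CoprodI.ext_hom _ _ fun s => MonoidHom.ext fun x => ?_
      change Monoid.CoprodI.lift (fun s => (A s).subtype) (Ψ (Monoid.CoprodI.of (M := S.A) x)) =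
        e (Monoid.CoprodI.of (M := S.A) x)
      rw [hΨ, Monoid.CoprodI.lift_of]
      rfl
    have h2' : ∀ z, Monoid.CoprodI.lift (fun s => (A s).subtype) (Ψ z) = e z := fun z =>
      DFunLike.congr_fun h2 z
    have h1' : ∀ z, Ψ (Ψ' z) = z := fun z => DFunLike.congr_fun h1 z
    constructor
    · rw [injective_iff_map_eq_one]
      intro y hy
      rw [← h1' y, h2', map_eq_one_iff _ e.injective] at hy
      rw [← h1' y, hy, map_one]
    · intro y
      exact ⟨Ψ (e.symm y), by rw [h2', MulEquiv.apply_symm_apply]⟩
  · intro s x g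
    rw [hε, he]

theorem Removable.removableIn (h : Removable m k) : RemovableIn m k := by
  obtain ⟨S, hS⟩ := h
  obtain ⟨A, ε, h1, h2⟩ := S.exists_equiv
  refine ⟨A, S.β, S.c, h1, fun i hi => ⟨S.conj i hi, ?_⟩, fun s => ?_⟩
  · rw [← (h2 _ _ _).1 (S.image i hi)]
    exact (ε _ _).2
  · rcases hS s with ⟨i, hi, hβ, hu, hK⟩ | ⟨f, hf1, hf2⟩
    · refine Or.inl ⟨i, hi, hβ, hu, ?_⟩
      subst hβ
      exact ⟨ε _ (S.a i), (h2 _ _ _).1 (S.image i hi), hK.of_equiv (ε _)⟩
    · refine Or.inr ⟨f.comp (ε s).symm.toMonoidHom, ?_, ?_⟩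
      · intro x
        have h3 := (h2 _ _ _).1 (hf1 ((ε s).symm x))
        rw [MulEquiv.apply_symm_apply] at h3
        exact h3.symm
      · intro i hi hβ x hx
        change f ((ε s).symm x) = _
        refine hf2 i hi hβ _ ((h2 _ _ _).2 ?_)
        rw [MulEquiv.apply_symm_apply]
        exact hx

theorem CompletelySplit.completelySplitIn (h : CompletelySplit m k) : CompletelySplitIn m k := by
  obtain ⟨S, hβ, hk, hS⟩ := h
  obtain ⟨A, ε, h1, h2⟩ := S.exists_equiv
  have key : ∀ i s, S.β i = s → i ≠ k → ∃ x : S.A s, S.q (S.c i) = Monoid.CoprodI.of x ∧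
      KnotLike x := by
    rintro i s rfl hi
    exact ⟨S.a i, S.image i hi, hS i hi⟩
  refine ⟨A, S.c, h1, ?_, ?_⟩
  · rw [eq_bot_iff]
    intro x hx
    have h3 : (ε k).symm ⟨x, hx⟩ = 1 := Subsingleton.elim _ _
    rw [MulEquiv.symm_apply_eq, map_one] at h3
    rw [Subgroup.mem_bot]
    exact congrArg Subtype.val h3
  · intro i hi
    obtain ⟨x, hx, hK⟩ := key i i (congrFun hβ i) hi
    exact ⟨S.conj i hi, ε i x, (h2 _ _ _).1 hx, hK.of_equiv (ε i)⟩

theorem CompletelySplit.removable (h : CompletelySplit m k) : Removable m k :=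
  (RemovableIn.of_completelySplit h.completelySplitIn).removable

end

section
variable {G : Type u} [Group G] {n : ℕ}

/-- The map `G(L) → (∩_{i ≠ k} R_i) / [R_i : i ≠ k]_S` induced by the inclusion. -/
noncomputable def toRest (m : Fin (n + 2) → G) (k : Fin (n + 2)) : LGrp m →* LGrp (restMer m k) :=
  forgetMap m k

/-- The projection. -/
def projMer {ι : Type*} (m : ι → G) (k : ι) : G →* SubGrp m k := QuotientGroup.mk' (mer m k)

/-- The intersection of the normal closures. -/
def capMer (m : Fin n → G) : Subgroup G := ⨅ i, mer m i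

theorem capMap_mem (m : Fin (n + 2) → G) (k : Fin (n + 2)) (x : capMer (restMer m k)) :
    ((projMer m k).comp (Subgroup.subtype _)) x ∈ capMer (subMer m k) :=
  mk_mem_iInf m k x

/-- The intersection of the normal closures as a group. -/
def CapG (m : Fin n → G) : Type u := capMer m

instance (m : Fin n → G) : Group (CapG m) := inferInstanceAs (Group (capMer m))

/-- The projection on the intersections. -/
def capMap (m : Fin (n + 2) → G) (k : Fin (n + 2)) : CapG (restMer m k) →* CapG (subMer m k) :=
  ((projMer m k).comp (Subgroup.subtype _)).codRestrict _ (capMap_mem m k)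

theorem capMap_le (m : Fin (n + 2) → G) (k : Fin (n + 2)) :
    (symmetricCommutator (mer (restMer m k))).subgroupOf (capMer (restMer m k)) ≤
      ((symmetricCommutator (mer (subMer m k))).subgroupOf (capMer (subMer m k))).comap
        (capMap m k) := by
  intro x hx
  rw [Subgroup.mem_subgroupOf] at hx
  change projMer m k (x : G) ∈ symmetricCommutator (mer (subMer m k))
  have h1 := map_symmetricCommutator (projMer m k) (mer (restMer m k))
  have h2 : (fun i => (mer (restMer m k) i).map (projMer m k)) = mer (subMer m k) := by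
    funext i
    exact map_mer _ (QuotientGroup.mk'_surjective _) _ i
  rw [h2] at h1
  rw [← h1]
  exact ⟨x, hx, rfl⟩

/-- The map to the group `G(L - K_k)` induced by the projection. -/
noncomputable def toSub (m : Fin (n + 2) → G) (k : Fin (n + 2)) :
    LGrp (restMer m k) →* LGrp (subMer m k) :=
  QuotientGroup.map ((symmetricCommutator (mer (restMer m k))).subgroupOf (capMer (restMer m k)))
    ((symmetricCommutator (mer (subMer m k))).subgroupOf (capMer (subMer m k)))
    (capMap m k) (capMap_le m k)

theorem toSub_eq (m : Fin (n + 2) → G) (k : Fin (n + 2)) : toSub m k = toSublink m k := rfl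

theorem range_toRest (m : Fin (n + 2) → G) (k : Fin (n + 2)) :
    (toRest m k).range = (toSub m k).ker :=
  range_forgetMap m k

theorem toRest_injective {m : Fin (n + 2) → G} {k : Fin (n + 2)} (h : Removable m k) :
    Function.Injective (toRest m k) :=
  forgetMap_injective h.removableIn

theorem toRest_bijective {m : Fin (n + 2) → G} {k : Fin (n + 2)} (h : CompletelySplit m k) :
    Function.Bijective (toRest m k) :=
  forgetMap_bijective h.removable.removableIn h.completelySplitIn.subsingleton

/-- The sequence `1 → G(L) → (∩_{i ≠ k} R_i) / [R_i : i ≠ k]_S → G(L - K_k)` is exact. -/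
def ExactSeq (m : Fin (n + 2) → G) (k : Fin (n + 2)) : Prop :=
  Function.Injective (toRest m k) ∧ (toRest m k).range = (toSub m k).ker

/-- The map to `G(L - K_k)` is onto. -/
def OntoSub (m : Fin (n + 2) → G) (k : Fin (n + 2)) : Prop := Function.Surjective (toSub m k)

/-- The map `G(L) → (∩_{i ≠ k} R_i) / [R_i : i ≠ k]_S` is an isomorphism. -/
def IsoRest (m : Fin (n + 2) → G) (k : Fin (n + 2)) : Prop := Function.Bijective (toRest m k)

theorem toSub_surjective {m : Fin (n + 2) → G} {k : Fin (n + 2)} (h : MeridionalSection m k) :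
    Function.Surjective (toSub m k) :=
  toSublink_surjective h

end

end Pool.Agent.Lib.MP_a6d6d3_gt
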